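import Mathlib

set_option autoImplicit false

/-!
The norm form of the coordinate ring of a Weierstrass curve, and a homogeneous relation between
`n + 1` linear functions of its values on a space of dimension `n`.
-/

namespace Pool.Agent.Helper51.EC2

open Polynomial

variable {K : Type*} [Field K]

/-- the bilinear form whose diagonal is the norm of `u.1 + u.2 Y` -/
noncomputable def Bm (W : WeierstrassCurve K) :
    (K[X] × K[X]) →ₗ[K] (K[X] × K[X]) →ₗ[K] K[X] :=
  LinearMap.mk₂ K (fun u v => u.1 * v.1 - u.1 * v.2 * (C W.a₁ * X + C W.a₃) -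
    u.2 * v.2 * (X ^ 3 + C W.a₂ * X ^ 2 + C W.a₄ * X + C W.a₆))
    (fun u u' v => by simp only [Prod.fst_add, Prod.snd_add]; ring)
    (fun c u v => by
      simp only [Prod.smul_fst, Prod.smul_snd, smul_mul_assoc, smul_sub])
    (fun u v v' => by simp only [Prod.fst_add, Prod.snd_add]; ring)
    (fun c u v => by
      simp only [Prod.smul_fst, Prod.smul_snd, smul_mul_assoc, mul_smul_comm, smul_sub])

/-- the norm form -/
noncomputable def Nm (W : WeierstrassCurve K) (u : K[X] × K[X]) : K[X] :=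
  u.1 ^ 2 - u.1 * u.2 * (C W.a₁ * X + C W.a₃) -
    u.2 ^ 2 * (X ^ 3 + C W.a₂ * X ^ 2 + C W.a₄ * X + C W.a₆)

theorem Bm_self (W : WeierstrassCurve K) (u : K[X] × K[X]) : Bm W u u = Nm W u := by
  simp only [Bm, LinearMap.mk₂_apply, Nm]
  ring

theorem degree_Nm (W : WeierstrassCurve K) (u : K[X] × K[X]) :
    (Nm W u).degree = max (2 • u.1.degree) (2 • u.2.degree + 3) := by
  have h := WeierstrassCurve.Affine.CoordinateRing.degree_norm_smul_basis (W' := W) u.1 u.2
  rw [WeierstrassCurve.Affine.CoordinateRing.norm_smul_basis] at h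
  exact h

theorem eval_smul_of_isHomogeneous {σ R : Type*} [Fintype σ] [CommRing R]
    {Ψ : MvPolynomial σ R} {d : ℕ} (h : Ψ.IsHomogeneous d) (c : R) (v : σ → R) :
    MvPolynomial.eval (fun i => c * v i) Ψ = c ^ d * MvPolynomial.eval v Ψ := by
  rw [MvPolynomial.eval_eq', MvPolynomial.eval_eq', Finset.mul_sum]
  refine Finset.sum_congr rfl fun m hm => ?_
  have h1 : m.degree = d := by
    by_contra hne
    exact (MvPolynomial.mem_support_iff.1 hm) (h.coeff_eq_zero hne)
  have h2 : ∑ i, m i = d := by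
    rw [← h1, Finsupp.degree_eq_sum]
  simp only [mul_pow]
  rw [Finset.prod_mul_distrib, Finset.prod_pow_eq_pow_sum, h2]
  ring

/-- `n + 1` quadratic forms in `n` variables satisfy a homogeneous relation -/
theorem exists_homogeneous_relation {n : ℕ} (Q : Fin (n + 1) → MvPolynomial (Fin n) K)
    (hQ : ∀ i, (Q i).IsHomogeneous 2) :
    ∃ (d : ℕ) (Ψ : MvPolynomial (Fin (n + 1)) K), Ψ ≠ 0 ∧ Ψ.IsHomogeneous d ∧
      MvPolynomial.aeval Q Ψ = 0 := by
  classical
  have hdep : ¬ AlgebraicIndependent K Q := by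
    intro h
    have h1 := h.lift_cardinalMk_le_trdeg
    rw [MvPolynomial.trdeg_of_isDomain] at h1
    simp only [Cardinal.mk_fin, Cardinal.lift_natCast] at h1
    have h2 : n + 1 ≤ n := by exact_mod_cast h1
    omega
  rw [AlgebraicIndependent, injective_iff_map_eq_zero] at hdep
  push Not at hdep
  obtain ⟨Φ, hΦ, hΦ0⟩ := hdep
  obtain ⟨d, hd⟩ : ∃ d, MvPolynomial.homogeneousComponent d Φ ≠ 0 := by
    by_contra hcon
    push Not at hcon
    apply hΦ0
    rw [← MvPolynomial.sum_homogeneousComponent Φ]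
    exact Finset.sum_eq_zero fun i _ => hcon i
  refine ⟨d, MvPolynomial.homogeneousComponent d Φ, hd,
    MvPolynomial.homogeneousComponent_isHomogeneous d Φ, ?_⟩
  have h1 : MvPolynomial.aeval Q Φ = ∑ i ∈ Finset.range (Φ.totalDegree + 1),
      MvPolynomial.aeval Q (MvPolynomial.homogeneousComponent i Φ) := by
    conv_lhs => rw [← MvPolynomial.sum_homogeneousComponent Φ]
    rw [map_sum]
  have hhom : ∀ i, (MvPolynomial.aeval Q (MvPolynomial.homogeneousComponent i Φ)).IsHomogeneous
      (2 * i) := fun i => (MvPolynomial.homogeneousComponent_isHomogeneous i Φ).aeval Q hQ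
  have hlt : d ∈ Finset.range (Φ.totalDegree + 1) := by
    rw [Finset.mem_range]
    by_contra hlt
    exact hd (MvPolynomial.homogeneousComponent_eq_zero _ _ (by omega))
  have h2 := congrArg (MvPolynomial.homogeneousComponent (2 * d)) h1
  rw [hΦ, map_zero, map_sum, Finset.sum_eq_single d] at h2
  · rw [MvPolynomial.homogeneousComponent_eq_self (hhom d)] at h2
    exact h2.symm
  · intro i _ hi
    rw [MvPolynomial.homogeneousComponent_of_mem (hhom i), if_neg]
    omega
  · intro h
    exact absurd hlt h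

/-- the relation for the norm form -/
theorem exists_relation (W : WeierstrassCurve K) (n : ℕ) (U : Submodule K (K[X] × K[X]))
    [FiniteDimensional K U] (hU : Module.finrank K U = n) (Λ : Fin (n + 1) → K[X] →ₗ[K] K) :
    ∃ (d : ℕ) (Ψ : MvPolynomial (Fin (n + 1)) K), Ψ ≠ 0 ∧ Ψ.IsHomogeneous d ∧
      ∀ u ∈ U, MvPolynomial.eval (fun i => Λ i (Nm W u)) Ψ = 0 := by
  classical
  let b : Module.Basis (Fin n) K U := Module.finBasisOfFinrankEq K U hU
  let Q : Fin (n + 1) → MvPolynomial (Fin n) K := fun i =>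
    ∑ j, ∑ k, MvPolynomial.C (Λ i (Bm W (b j) (b k))) * MvPolynomial.X j * MvPolynomial.X k
  have hQ : ∀ i, (Q i).IsHomogeneous 2 := by
    intro i
    refine MvPolynomial.IsHomogeneous.sum _ _ _ fun j _ => ?_
    refine MvPolynomial.IsHomogeneous.sum _ _ _ fun k _ => ?_
    have h1 := (MvPolynomial.isHomogeneous_C_mul_X (Λ i (Bm W (b j) (b k))) j).mul
      (MvPolynomial.isHomogeneous_X K k)
    exact h1
  obtain ⟨d, Ψ, hΨ0, hΨd, hΨ⟩ := exists_homogeneous_relation Q hQ
  refine ⟨d, Ψ, hΨ0, hΨd, fun u hu => ?_⟩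
  let x : Fin n → K := fun j => b.repr ⟨u, hu⟩ j
  have hx : u = ∑ j, x j • (b j : K[X] × K[X]) := by
    have h1 := congrArg Subtype.val (b.sum_repr ⟨u, hu⟩)
    refine h1.symm.trans ?_
    push_cast
    rfl
  have hQx : ∀ i, MvPolynomial.eval x (Q i) = Λ i (Nm W u) := by
    intro i
    rw [← Bm_self]
    conv_rhs => rw [hx]
    simp only [Q, map_sum, map_mul, MvPolynomial.eval_C, MvPolynomial.eval_X, map_smul,
      LinearMap.sum_apply, LinearMap.smul_apply, smul_eq_mul]
    rw [Finset.sum_comm]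
    refine Finset.sum_congr rfl fun j _ => ?_
    rw [Finset.mul_sum]
    refine Finset.sum_congr rfl fun k _ => ?_
    ring
  have h3 : MvPolynomial.eval (fun i => MvPolynomial.eval x (Q i)) Ψ = 0 := by
    have h4 : MvPolynomial.eval x (MvPolynomial.aeval Q Ψ) =
        MvPolynomial.eval (fun i => MvPolynomial.eval x (Q i)) Ψ := by
      rw [← MvPolynomial.coe_aeval_eq_eval, ← MvPolynomial.coe_aeval_eq_eval]
      simp only [RingHom.coe_coe]
      rw [← AlgHom.comp_apply, MvPolynomial.comp_aeval]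
    rw [← h4, hΨ, map_zero]
  rw [← h3]
  refine congrArg (fun v : Fin (n + 1) → K => MvPolynomial.eval v Ψ) (_root_.funext fun i => ?_)
  exact (hQx i).symm

end Pool.Agent.Helper51.EC2
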