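import Pool.Agent.Helper51.EC2.Grid
import Pool.Agent.Helper51.EC2.Relation

set_option autoImplicit false

/-!
Coefficients of a monic polynomial as functions of its roots, and minimal polynomials of elements
with distinct conjugates.
-/

namespace Pool.Agent.Helper51.EC2

open Polynomial

section roots

variable {ι Ω : Type*} [Fintype ι] [Field Ω]

theorem exists_roots [IsAlgClosed Ω] (P : Polynomial Ω) (hP : P.Monic)
    (hd : P.natDegree = Fintype.card ι) : ∃ v : ι → Ω, P = ∏ i, (X - C (v i)) := by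
  classical
  have hs : P.Splits := IsAlgClosed.splits P
  have hc := hs.natDegree_eq_card_roots
  have hprod := prod_multiset_X_sub_C_of_monic_of_roots_card_eq hP hc.symm
  have hlen : P.roots.toList.length = Fintype.card ι := by
    rw [Multiset.length_toList, ← hc, hd]
  let e : ι ≃ Fin P.roots.toList.length := (Fintype.equivFin ι).trans (finCongr hlen.symm)
  refine ⟨fun i => P.roots.toList.get (e i), ?_⟩
  rw [Fintype.prod_equiv e _ (fun j => X - C (P.roots.toList.get j)) (fun i => rfl)]
  rw [← List.prod_ofFn]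
  have h1 : List.ofFn (fun j => X - C (P.roots.toList.get j)) =
      P.roots.toList.map (fun a => X - C a) := by
    have h2 : ∀ l : List Ω, List.ofFn (fun j => (X - C (l.get j) : Polynomial Ω)) =
        l.map (fun a => X - C a) := by
      intro l
      conv_rhs => rw [← List.ofFn_get l, List.map_ofFn]
      rfl
    exact h2 _
  rw [h1, ← Multiset.prod_coe, ← Multiset.map_coe, Multiset.coe_toList, hprod]

/-- the value of `Ψ` at the coefficients of the polynomial with given roots -/
noncomputable def FP (ι : Type*) [Fintype ι] {n : ℕ} (Ψ : MvPolynomial (Fin (n + 1)) Ω) :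
    MvPolynomial ι Ω :=
  MvPolynomial.aeval (fun i : Fin (n + 1) =>
    (∏ σ : ι, (X - C (MvPolynomial.X σ : MvPolynomial ι Ω))).coeff i) Ψ

theorem eval_FP {n : ℕ} (Ψ : MvPolynomial (Fin (n + 1)) Ω) (v : ι → Ω) :
    MvPolynomial.eval v (FP ι Ψ) =
      MvPolynomial.eval (fun i : Fin (n + 1) => (∏ σ : ι, (X - C (v σ))).coeff i) Ψ := by
  have h2 : MvPolynomial.eval v (FP ι Ψ) = MvPolynomial.eval (fun i : Fin (n + 1) =>
      MvPolynomial.eval v
        ((∏ σ : ι, (X - C (MvPolynomial.X σ : MvPolynomial ι Ω))).coeff i)) Ψ := by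
    rw [FP, ← MvPolynomial.coe_aeval_eq_eval, ← MvPolynomial.coe_aeval_eq_eval]
    simp only [RingHom.coe_coe]
    rw [← AlgHom.comp_apply, MvPolynomial.comp_aeval]
  rw [h2]
  refine congrArg (fun w : Fin (n + 1) → Ω => MvPolynomial.eval w Ψ) (_root_.funext fun i => ?_)
  have h3 := congrArg (fun P : Polynomial Ω => P.coeff i)
    (Polynomial.map_prod (MvPolynomial.eval v)
      (fun σ : ι => X - C (MvPolynomial.X σ : MvPolynomial ι Ω)) Finset.univ)
  simp only [coeff_map, Polynomial.map_sub, map_X, map_C, MvPolynomial.eval_X] at h3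
  exact h3

theorem FP_ne_zero [IsAlgClosed Ω] {n d : ℕ} (hn : Fintype.card ι = n)
    {Ψ : MvPolynomial (Fin (n + 1)) Ω} (hΨ : Ψ ≠ 0) (hd : Ψ.IsHomogeneous d) :
    FP ι Ψ ≠ 0 := by
  classical
  have h1 : Ψ * MvPolynomial.X (Fin.last n) ≠ 0 := mul_ne_zero hΨ (MvPolynomial.X_ne_zero _)
  obtain ⟨c, hc⟩ : ∃ c, MvPolynomial.eval c (Ψ * MvPolynomial.X (Fin.last n)) ≠ 0 := by
    by_contra hcon
    push Not at hcon
    exact h1 (MvPolynomial.funext fun x => by rw [hcon x, map_zero])
  rw [map_mul, MvPolynomial.eval_X] at hc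
  have hcn : c (Fin.last n) ≠ 0 := right_ne_zero_of_mul hc
  have hcΨ : MvPolynomial.eval c Ψ ≠ 0 := left_ne_zero_of_mul hc
  let a : Fin (n + 1) → Ω := fun i => (c (Fin.last n))⁻¹ * c i
  have ha : MvPolynomial.eval a Ψ ≠ 0 := by
    rw [eval_smul_of_isHomogeneous hd]
    exact mul_ne_zero (pow_ne_zero _ (inv_ne_zero hcn)) hcΨ
  have han : a (Fin.last n) = 1 := inv_mul_cancel₀ hcn
  let P : Polynomial Ω := ∑ i : Fin (n + 1), monomial (i : ℕ) (a i)
  have hcoeff : ∀ i : Fin (n + 1), P.coeff i = a i := by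
    intro i
    simp only [P, finsetSum_coeff, coeff_monomial]
    rw [Finset.sum_eq_single i]
    · rw [if_pos rfl]
    · intro j _ hj
      rw [if_neg]
      intro h
      exact hj (Fin.ext h)
    · intro h
      exact absurd (Finset.mem_univ _) h
  have hnat : P.natDegree ≤ n := by
    refine natDegree_sum_le_of_forall_le _ _ fun i _ => ?_
    exact (natDegree_monomial_le _).trans (Nat.lt_succ_iff.1 i.2)
  have hlead : P.coeff n = 1 := by
    rw [← han, ← hcoeff]
    rfl
  have hmonic : P.Monic := monic_of_natDegree_le_of_coeff_eq_one n hnat hlead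
  have hdeg : P.natDegree = n := by
    refine le_antisymm hnat (le_natDegree_of_ne_zero ?_)
    rw [hlead]
    exact one_ne_zero
  obtain ⟨v, hv⟩ := exists_roots (ι := ι) P hmonic (hdeg.trans hn.symm)
  intro h0
  have h2 := eval_FP Ψ v
  rw [h0, map_zero, ← hv] at h2
  apply ha
  rw [h2]
  refine congrArg (fun w : Fin (n + 1) → Ω => MvPolynomial.eval w Ψ) (_root_.funext fun i => ?_)
  exact (hcoeff i).symm

end roots

variable {K L Ω : Type*} [Field K] [Field L] [Field Ω] [Algebra K L] [Algebra K Ω]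
  [FiniteDimensional K L] [Algebra.IsSeparable K L] [IsAlgClosed Ω]

/-- the minimal polynomial of an element with distinct conjugates -/
theorem minpoly_map_eq (t : L) (ht : Function.Injective fun σ : L →ₐ[K] Ω => σ t) :
    (minpoly K t).map (algebraMap K Ω) = ∏ σ : L →ₐ[K] Ω, (X - C (σ t)) := by
  classical
  have hint : IsIntegral K t := Algebra.IsIntegral.isIntegral t
  refine eq_of_monic_of_dvd_of_natDegree_le (monic_prod_of_monic _ _ fun σ _ => monic_X_sub_C _)
    ((minpoly.monic hint).map _) ?_ ?_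
  · refine Finset.prod_dvd_of_coprime ?_ fun σ _ => ?_
    · intro σ _ τ _ hστ
      exact pairwise_coprime_X_sub_C ht hστ
    · rw [dvd_iff_isRoot, IsRoot, eval_map_algebraMap, aeval_algHom_apply, minpoly.aeval, map_zero]
  · rw [natDegree_map, natDegree_prod_of_monic _ _ fun σ _ => monic_X_sub_C _]
    simp only [natDegree_X_sub_C, Finset.sum_const, smul_eq_mul, mul_one]
    rw [Finset.card_univ, AlgHom.card]
    exact minpoly.natDegree_le t

theorem natDegree_minpoly_eq (t : L) (ht : Function.Injective fun σ : L →ₐ[K] Ω => σ t) :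
    (minpoly K t).natDegree = Module.finrank K L := by
  classical
  have h := congrArg natDegree (minpoly_map_eq t ht)
  rw [natDegree_map, natDegree_prod_of_monic _ _ fun σ _ => monic_X_sub_C _] at h
  simp only [natDegree_X_sub_C, Finset.sum_const, smul_eq_mul, mul_one] at h
  rw [h, Finset.card_univ, AlgHom.card]

/-- transport of a homogeneous relation between the coefficients of the minimal polynomial -/
theorem eval_FP_eq_zero (t : L) (ht : Function.Injective fun σ : L →ₐ[K] Ω => σ t) {n : ℕ}
    (Ψ : MvPolynomial (Fin (n + 1)) K)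
    (h : MvPolynomial.eval (fun i : Fin (n + 1) => (minpoly K t).coeff i) Ψ = 0) :
    MvPolynomial.eval (fun σ : L →ₐ[K] Ω => σ t)
      (FP (L →ₐ[K] Ω) (MvPolynomial.map (algebraMap K Ω) Ψ)) = 0 := by
  rw [eval_FP, ← minpoly_map_eq t ht]
  have h1 := congrArg (algebraMap K Ω) h
  rw [map_zero] at h1
  rw [← h1, MvPolynomial.eval_map]
  have h2 := MvPolynomial.eval₂_comp_left (algebraMap K Ω) (RingHom.id K)
    (fun i : Fin (n + 1) => (minpoly K t).coeff i) Ψ
  rw [RingHom.comp_id] at h2
  rw [MvPolynomial.eval, MvPolynomial.coe_eval₂Hom, h2]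
  congr 1
  exact _root_.funext fun i => coeff_map _ _

end Pool.Agent.Helper51.EC2
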