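import Pool.Agent.Helper51.KL.Index

set_option autoImplicit false

/-!
Finite extensions of a field with topologically finitely generated absolute Galois group: the
property passes to finite extensions, and its consequences for powers and for the map
`z ↦ z ^ 2 + z` in characteristic two.
-/

namespace Pool.Agent.Helper51.EC2

open Polynomial

/-- finitely many automorphisms detect the elements of the base -/
def FixFG (F Ω : Type*) [Field F] [Field Ω] [Algebra F Ω] : Prop :=
  ∃ S : Set (Ω ≃ₐ[F] Ω), S.Finite ∧ ∀ z : Ω, IsSeparable F z → (∀ σ ∈ S, σ z = z) →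
    ∃ c : F, algebraMap F Ω c = z

/-- A separable element fixed by all automorphisms is in the base. -/
theorem mem_of_fixed' {F Ω : Type*} [Field F] [Field Ω] [Algebra F Ω] [IsAlgClosed Ω]
    [Normal F Ω] (z : Ω) (hsep : IsSeparable F z)
    (hz : ∀ σ : Ω ≃ₐ[F] Ω, σ z = z) :
    ∃ c : F, algebraMap F Ω c = z := by
  have hint : IsIntegral F z := hsep.isIntegral
  have hroots : ∀ w ∈ (minpoly F z).aroots Ω, w = z := by
    intro w hw
    have h1 : aeval w (minpoly F z) = 0 := (mem_aroots.mp hw).2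
    have h2 : minpoly F w = minpoly F z :=
      (minpoly.eq_of_irreducible_of_monic (minpoly.irreducible hint) h1 (minpoly.monic hint)).symm
    have h3 := (Normal.minpoly_eq_iff_mem_orbit (F := F) Ω).mp h2
    obtain ⟨σ, hσ⟩ := h3
    rw [← hσ]
    exact hz σ
  have hnodup : ((minpoly F z).aroots Ω).Nodup :=
    nodup_aroots_iff_of_splits (minpoly.ne_zero hint) (IsAlgClosed.splits _) |>.mpr hsep
  have hcard : ((minpoly F z).aroots Ω).card = (minpoly F z).natDegree := by
    have := (IsAlgClosed.splits ((minpoly F z).map (algebraMap F Ω))).natDegree_eq_card_roots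
    rw [natDegree_map] at this
    exact this.symm
  have hle : ((minpoly F z).aroots Ω).card ≤ 1 := by
    have h1 : (minpoly F z).aroots Ω ≤ {z} := by
      rw [Multiset.le_iff_subset hnodup]
      intro w hw
      rw [Multiset.mem_singleton]
      exact hroots w hw
    simpa using Multiset.card_le_card h1
  have hdeg : (minpoly F z).natDegree = 1 := le_antisymm (hcard ▸ hle) (minpoly.natDegree_pos hint)
  exact minpoly.natDegree_eq_one_iff.mp hdeg

variable {K : Type*} [Field K]

theorem finiteIndex_fixingSubgroup (L : IntermediateField K (AlgebraicClosure K))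
    [FiniteDimensional K L] : L.fixingSubgroup.FiniteIndex := by
  have h1 : Finite ((AlgebraicClosure K ≃ₐ[K] AlgebraicClosure K) ⧸ L.fixingSubgroup) := by
    refine Finite.of_injective (β := L →ₐ[K] AlgebraicClosure K)
      (fun q => ((q.out : AlgebraicClosure K ≃ₐ[K] AlgebraicClosure K) :
        AlgebraicClosure K →ₐ[K] AlgebraicClosure K).comp L.val) ?_
    intro q q' h
    have h2 : (q.out)⁻¹ * q'.out ∈ L.fixingSubgroup := by
      rw [IntermediateField.mem_fixingSubgroup_iff]
      intro x hx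
      have h3 := DFunLike.congr_fun h (⟨x, hx⟩ : L)
      change q.out x = q'.out x at h3
      change (q.out).symm (q'.out x) = x
      rw [← h3, AlgEquiv.symm_apply_apply]
    rw [← q.out_eq', ← q'.out_eq']
    exact QuotientGroup.eq.2 h2
  exact Subgroup.finiteIndex_of_finite_quotient

theorem exists_fix (hK : ∃ S : Set (Field.absoluteGaloisGroup K), S.Finite ∧
      closure ((Subgroup.closure S : Subgroup (Field.absoluteGaloisGroup K)) :
        Set (Field.absoluteGaloisGroup K)) = Set.univ)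
    (L : IntermediateField K (AlgebraicClosure K)) [FiniteDimensional K L] :
    FixFG L (AlgebraicClosure K) := by
  classical
  change ∃ S : Set (AlgebraicClosure K ≃ₐ[K] AlgebraicClosure K), S.Finite ∧
      closure ((Subgroup.closure S : Subgroup (AlgebraicClosure K ≃ₐ[K] AlgebraicClosure K)) :
        Set (AlgebraicClosure K ≃ₐ[K] AlgebraicClosure K)) = Set.univ at hK
  obtain ⟨S, hSf, hS⟩ := hK
  set Γ := Subgroup.closure S with hΓ
  have hFI := finiteIndex_fixingSubgroup L
  have hFG : Group.FG Γ := (Group.fg_iff_subgroup_fg Γ).2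
    ((Subgroup.fg_iff Γ).2 ⟨S, rfl, hSf⟩)
  have hFG' : Group.FG (L.fixingSubgroup.subgroupOf Γ) := inferInstance
  obtain ⟨T, hT, hTf⟩ := (Subgroup.fg_iff _).1 ((Group.fg_iff_subgroup_fg _).1 hFG')
  -- elements fixed by the intersection are fixed by the fixing subgroup
  have key : ∀ z : AlgebraicClosure K,
      (∀ γ ∈ T, (γ : AlgebraicClosure K ≃ₐ[K] AlgebraicClosure K) z = z) →
      ∀ h ∈ L.fixingSubgroup, h z = z := by
    intro z hz h hh
    have h1 : ∀ γ ∈ L.fixingSubgroup.subgroupOf Γ,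
        (γ : AlgebraicClosure K ≃ₐ[K] AlgebraicClosure K) z = z := by
      have h2 : L.fixingSubgroup.subgroupOf Γ ≤
          (MulAction.stabilizer (AlgebraicClosure K ≃ₐ[K] AlgebraicClosure K) z).subgroupOf Γ := by
        rw [← hT, Subgroup.closure_le]
        intro γ hγ
        exact hz γ hγ
      intro γ hγ
      exact h2 hγ
    have hopen : IsOpen (MulAction.stabilizer (AlgebraicClosure K ≃ₐ[K] AlgebraicClosure K) z :
        Set (AlgebraicClosure K ≃ₐ[K] AlgebraicClosure K)) :=
      stabilizer_isOpen_of_isIntegral z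
    have hopen2 := L.fixingSubgroup_isOpen
    have hopen3 : IsOpen ((fun g => h⁻¹ * g) ⁻¹' ((MulAction.stabilizer
        (AlgebraicClosure K ≃ₐ[K] AlgebraicClosure K) z :
        Set (AlgebraicClosure K ≃ₐ[K] AlgebraicClosure K)) ∩ L.fixingSubgroup)) :=
      (hopen.inter hopen2).preimage (continuous_const_mul h⁻¹)
    have hd : Dense (Γ : Set (AlgebraicClosure K ≃ₐ[K] AlgebraicClosure K)) :=
      dense_iff_closure_eq.2 hS
    obtain ⟨g, ⟨hk1, hk2⟩, hgΓ⟩ := hd.inter_open_nonempty _ hopen3
      ⟨h, by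
        rw [Set.mem_preimage, inv_mul_cancel]
        exact ⟨one_mem _, one_mem _⟩⟩
    have hk2' : h⁻¹ * g ∈ L.fixingSubgroup := hk2
    have hk1' : (h⁻¹ * g) z = z := hk1
    have hgL : g ∈ L.fixingSubgroup := by
      have := mul_mem hh hk2'
      rwa [mul_inv_cancel_left] at this
    have h3 : g z = z := h1 ⟨g, hgΓ⟩ hgL
    have h4 : h ((h⁻¹ * g) z) = g z := by
      rw [← AlgEquiv.mul_apply, mul_inv_cancel_left]
    rwa [hk1', h3] at h4
  refine ⟨(fun γ : T => if hγ : ((γ : Γ) : AlgebraicClosure K ≃ₐ[K] AlgebraicClosure K) ∈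
    L.fixingSubgroup then L.fixingSubgroupEquiv ⟨_, hγ⟩ else 1) '' Set.univ, ?_, ?_⟩
  · have : Finite T := hTf
    exact Set.toFinite _
  · intro z hsep hz
    have : Normal L (AlgebraicClosure K) := inferInstance
    refine mem_of_fixed' z hsep fun σ => ?_
    have h1 := key z (fun γ hγ => ?_) (L.fixingSubgroupEquiv.symm σ).1
      (L.fixingSubgroupEquiv.symm σ).2
    · have h2 : L.fixingSubgroupEquiv (L.fixingSubgroupEquiv.symm σ) = σ :=
        MulEquiv.apply_symm_apply _ _
      have h3 : L.fixingSubgroupEquiv (L.fixingSubgroupEquiv.symm σ) z =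
        (L.fixingSubgroupEquiv.symm σ).1 z := rfl
      rw [← h2, h3]
      exact h1
    · have hγL : ((γ : Γ) : AlgebraicClosure K ≃ₐ[K] AlgebraicClosure K) ∈ L.fixingSubgroup := by
        have : γ ∈ L.fixingSubgroup.subgroupOf Γ := by
          rw [← hT]
          exact Subgroup.subset_closure hγ
        exact this
      have h2 := hz _ ⟨⟨γ, hγ⟩, Set.mem_univ _, rfl⟩
      beta_reduce at h2
      rw [dif_pos hγL] at h2
      exact h2

section consequences

variable {F Ω : Type*} [Field F] [Field Ω] [Algebra F Ω] [IsAlgClosed Ω]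

theorem finIdx_of_fix (hF : FixFG F Ω) {N : ℕ} (hN : (N : F) ≠ 0) :
    Pool.Agent.Helper51.KL.FinIdx F N := by
  classical
  obtain ⟨S, hSf, hS⟩ := hF
  have hN0 : N ≠ 0 := by rintro rfl; simp at hN
  have hN1 : 0 < N := Nat.pos_of_ne_zero hN0
  -- roots
  have hβ : ∀ x : F, ∃ β : Ω, β ^ N = algebraMap F Ω x :=
    fun x => IsAlgClosed.exists_pow_nat_eq _ hN1
  choose β hβ using hβ
  have hβ0 : ∀ x : F, x ≠ 0 → β x ≠ 0 := by
    intro x hx h
    have := hβ x
    rw [h, zero_pow hN0] at this
    exact hx ((map_eq_zero _).1 this.symm)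
  -- the finite set of roots of unity
  let μ : Finset Ω := (nthRoots N (1 : Ω)).toFinset
  have hμ : ∀ ζ : Ω, ζ ∈ μ ↔ ζ ^ N = 1 := by
    intro ζ
    rw [Multiset.mem_toFinset, mem_nthRoots hN1]
  have hr : ∀ (x : F) (σ : S), ∃ ζ : μ, x ≠ 0 → (σ : Ω ≃ₐ[F] Ω) (β x) = (ζ : Ω) * β x := by
    intro x σ
    by_cases hx : x = 0
    · exact ⟨⟨1, (hμ 1).2 (one_pow N)⟩, fun h => absurd hx h⟩
    · refine ⟨⟨(σ : Ω ≃ₐ[F] Ω) (β x) / β x, (hμ _).2 ?_⟩, fun _ => ?_⟩
      · rw [div_pow, ← map_pow, hβ, AlgEquiv.commutes, div_self]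
        exact fun h => hx ((map_eq_zero _).1 h)
      · rw [div_mul_cancel₀ _ (hβ0 x hx)]
  choose r hr using hr
  have : Finite S := hSf
  have : Finite (S → μ) := inferInstance
  let _ : Fintype (S → μ) := Fintype.ofFinite _
  -- representatives
  let R : (S → μ) → F := fun f => if h : ∃ x : F, x ≠ 0 ∧ r x = f then h.choose else 1
  have hR0 : ∀ f, R f ≠ 0 := by
    intro f
    by_cases h : ∃ x : F, x ≠ 0 ∧ r x = f
    · simp only [R, dif_pos h]
      exact h.choose_spec.1
    · simp only [R, dif_neg h]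
      exact one_ne_zero
  refine ⟨Finset.univ.image R, ?_, ?_⟩
  · intro t ht
    obtain ⟨f, -, rfl⟩ := Finset.mem_image.1 ht
    exact hR0 f
  · intro x hx
    refine ⟨R (r x), Finset.mem_image_of_mem _ (Finset.mem_univ _), ?_⟩
    have hex : ∃ x' : F, x' ≠ 0 ∧ r x' = r x := ⟨x, hx, rfl⟩
    have hRx : R (r x) = hex.choose := by simp only [R, dif_pos hex]
    have h1 : hex.choose ≠ 0 := hex.choose_spec.1
    have h2 : r hex.choose = r x := hex.choose_spec.2
    rw [hRx]
    set x' := hex.choose with hx'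
    -- the quotient of the roots is fixed
    have hfix : ∀ σ ∈ S, σ (β x / β x') = β x / β x' := by
      intro σ hσ
      have e1 := hr x ⟨σ, hσ⟩ hx
      have e2 := hr x' ⟨σ, hσ⟩ h1
      rw [h2] at e2
      simp only at e1 e2
      rw [map_div₀, e1, e2]
      have hζ : ((r x ⟨σ, hσ⟩ : μ) : Ω) ≠ 0 := by
        intro h0
        have := (hμ _).1 (r x ⟨σ, hσ⟩).2
        rw [h0, zero_pow hN0] at this
        exact zero_ne_one this
      exact mul_div_mul_left _ _ hζ
    have hpow : (β x / β x') ^ N = algebraMap F Ω (x / x') := by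
      rw [div_pow, hβ, hβ, map_div₀]
    have hq0 : x / x' ≠ 0 := div_ne_zero hx h1
    have hsep : IsSeparable F (β x / β x') := by
      have hs : (X ^ N - C (x / x') : F[X]).Separable := separable_X_pow_sub_C _ hN hq0
      refine hs.of_dvd (minpoly.dvd F _ ?_)
      simp only [map_sub, map_pow, aeval_X, aeval_C, hpow, sub_self]
    obtain ⟨c, hc⟩ := hS (β x / β x') hsep hfix
    have hcN : c ^ N = x / x' := by
      apply (algebraMap F Ω).injective
      rw [map_pow, hc, hpow]
    refine ⟨c, ?_, ?_⟩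
    · rintro rfl
      rw [zero_pow hN0] at hcN
      exact hq0 hcN.symm
    · rw [hcN, mul_div_cancel₀ _ h1]

/-- the Artin–Schreier map in characteristic two -/
def asMap (F : Type*) [CommRing F] [CharP F 2] : F →+ F where
  toFun z := z ^ 2 + z
  map_zero' := by ring
  map_add' x y := by
    have h2 : (2 : F) = 0 := CharTwo.two_eq_zero
    linear_combination x * y * h2

theorem asMap_apply [CharP F 2] (z : F) : asMap F z = z ^ 2 + z := rfl

theorem finite_as [CharP F 2] (hF : FixFG F Ω) : Finite (F ⧸ (asMap F).range) := by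
  classical
  obtain ⟨S, hSf, hS⟩ := hF
  have h2 : (2 : F) = 0 := CharTwo.two_eq_zero
  have h2' : (2 : Ω) = 0 := by
    have := congrArg (algebraMap F Ω) h2
    rwa [map_ofNat, map_zero] at this
  have hβ : ∀ x : F, ∃ β : Ω, β ^ 2 + β = algebraMap F Ω x := by
    intro x
    have hd : (X ^ 2 + X - C (algebraMap F Ω x) : Polynomial Ω).degree = 2 := by compute_degree!
    obtain ⟨β, hβ⟩ := IsAlgClosed.exists_root _ (by rw [hd]; norm_num :
      (X ^ 2 + X - C (algebraMap F Ω x) : Polynomial Ω).degree ≠ 0)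
    refine ⟨β, ?_⟩
    simp only [IsRoot, eval_sub, eval_add, eval_pow, eval_X, eval_C] at hβ
    exact sub_eq_zero.1 hβ
  choose β hβ using hβ
  have hr : ∀ (x : F) (σ : S), (σ : Ω ≃ₐ[F] Ω) (β x) = β x ∨
      (σ : Ω ≃ₐ[F] Ω) (β x) = β x + 1 := by
    intro x σ
    have h3 : ((σ : Ω ≃ₐ[F] Ω) (β x)) ^ 2 + (σ : Ω ≃ₐ[F] Ω) (β x) = β x ^ 2 + β x := by
      rw [hβ x, ← AlgEquiv.commutes (σ : Ω ≃ₐ[F] Ω) x, ← hβ x, map_add, map_pow]
    have h4 : ((σ : Ω ≃ₐ[F] Ω) (β x) - β x) * ((σ : Ω ≃ₐ[F] Ω) (β x) - (β x + 1)) = 0 := by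
      linear_combination h3 + (β x ^ 2 + β x -
        (σ : Ω ≃ₐ[F] Ω) (β x) * β x - (σ : Ω ≃ₐ[F] Ω) (β x)) * h2'
    rcases mul_eq_zero.1 h4 with h | h
    · exact Or.inl (sub_eq_zero.1 h)
    · exact Or.inr (sub_eq_zero.1 h)
  have : Finite S := hSf
  let r : F → (S → Prop) := fun x σ => (σ : Ω ≃ₐ[F] Ω) (β x) = β x
  have key : ∀ x x' : F, r x = r x' → x - x' ∈ (asMap F).range := by
    intro x x' hxx
    have hfix : ∀ σ ∈ S, σ (β x - β x') = β x - β x' := by
      intro σ hσ
      have e1 := hr x ⟨σ, hσ⟩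
      have e2 := hr x' ⟨σ, hσ⟩
      have e3 : (σ (β x) = β x) = (σ (β x') = β x') := congrFun hxx ⟨σ, hσ⟩
      simp only at e1 e2
      rw [map_sub]
      by_cases h : σ (β x) = β x
      · rw [h, e3.mp h]
      · have h' : ¬ σ (β x') = β x' := fun h' => h (e3.mpr h')
        rw [e1.resolve_left h, e2.resolve_left h']
        ring
    have has : (β x - β x') ^ 2 + (β x - β x') = algebraMap F Ω (x - x') := by
      rw [map_sub, ← hβ x, ← hβ x']
      linear_combination (β x' ^ 2 - β x * β x') * h2'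
    have hsep : IsSeparable F (β x - β x') := by
      have hs : (X ^ 2 + X - C (x - x') : F[X]).Separable := by
        refine ⟨0, 1, ?_⟩
        rw [zero_mul, one_mul, zero_add]
        simp only [derivative_sub, derivative_add, derivative_X_pow, derivative_X, derivative_C,
          sub_zero]
        rw [Nat.cast_ofNat, h2, C_0, zero_mul, zero_add]
      refine hs.of_dvd (minpoly.dvd F _ ?_)
      simp only [map_sub, map_add, map_pow, aeval_X, aeval_C, has, sub_self]
    obtain ⟨c, hc⟩ := hS _ hsep hfix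
    refine ⟨c, ?_⟩
    apply (algebraMap F Ω).injective
    rw [asMap_apply, map_add, map_pow, hc, has]
  have hfinP : Finite (S → Prop) := inferInstance
  refine Finite.of_injective (fun q : F ⧸ (asMap F).range => r q.out) ?_
  intro q q' hqq
  have h5 := key _ _ hqq
  rw [← q.out_eq', ← q'.out_eq']
  exact (QuotientAddGroup.eq_iff_sub_mem).2 h5

end consequences

end Pool.Agent.Helper51.EC2
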