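import Pool.Agent.Helper51.EC2.Poly

set_option autoImplicit false

/-!
A Weierstrass curve over `K` with few `K`-points has few points with `x`-coordinate of degree `n`.
-/

namespace Pool.Agent.Helper51.EC2

open Polynomial

variable {K : Type*} [Field K]

/-- functions with poles of order at most `m` -/
noncomputable def Vm (K : Type*) [Field K] (m : ℕ) : Submodule K (K[X] × K[X]) :=
  (degreeLT K (m / 2 + 1)).prod (degreeLT K ((m - 1) / 2))

theorem Vm_eq_range (m : ℕ) : Vm K m = LinearMap.range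
    (LinearMap.prodMap (degreeLT K (m / 2 + 1)).subtype (degreeLT K ((m - 1) / 2)).subtype) := by
  rw [LinearMap.range_prodMap, Submodule.range_subtype, Submodule.range_subtype]
  rfl

instance (m : ℕ) : FiniteDimensional K (degreeLT K m) :=
  LinearEquiv.finiteDimensional (degreeLTEquiv K m).symm

theorem finrank_degreeLT (m : ℕ) : Module.finrank K (degreeLT K m) = m := by
  rw [(degreeLTEquiv K m).finrank_eq]
  simp

instance (m : ℕ) : FiniteDimensional K (Vm K m) := by
  rw [Vm_eq_range]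
  infer_instance

theorem finrank_Vm {m : ℕ} (hm : 1 ≤ m) : Module.finrank K (Vm K m) = m := by
  rw [Vm_eq_range, LinearMap.finrank_range_of_inj, Module.finrank_prod, finrank_degreeLT,
    finrank_degreeLT]
  · omega
  · rintro ⟨a, b⟩ ⟨a', b'⟩ h
    simp only [LinearMap.prodMap_apply, Submodule.subtype_apply, Prod.mk.injEq] at h
    exact Prod.ext (Subtype.ext h.1) (Subtype.ext h.2)

theorem mem_Vm_iff (W : WeierstrassCurve K) {m : ℕ} (hm : 1 ≤ m) (u : K[X] × K[X]) :
    u ∈ Vm K m ↔ (Nm W u).degree ≤ m := by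
  rw [degree_Nm, max_le_iff, Vm, Submodule.mem_prod, mem_degreeLT, mem_degreeLT]
  refine and_congr ?_ ?_
  · by_cases h : u.1 = 0
    · rw [h, degree_zero]
      constructor
      · intro _
        exact bot_le
      · intro _
        exact WithBot.bot_lt_coe _
    · rw [degree_eq_natDegree h]
      constructor
      · intro h1
        have h2 : u.1.natDegree < m / 2 + 1 := by exact_mod_cast h1
        have h3 : 2 * u.1.natDegree ≤ m := by omega
        have h4 : ((2 * u.1.natDegree : ℕ) : WithBot ℕ) ≤ (m : ℕ) := by exact_mod_cast h3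
        rw [two_nsmul]
        rw [two_mul] at h4
        exact_mod_cast h4
      · intro h1
        rw [two_nsmul] at h1
        have h2 : u.1.natDegree + u.1.natDegree ≤ m := by exact_mod_cast h1
        have h3 : u.1.natDegree < m / 2 + 1 := by omega
        exact_mod_cast h3
  · by_cases h : u.2 = 0
    · rw [h, degree_zero]
      constructor
      · intro _
        exact bot_le
      · intro _
        exact WithBot.bot_lt_coe _
    · rw [degree_eq_natDegree h]
      constructor
      · intro h1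
        have h2 : u.2.natDegree < (m - 1) / 2 := by exact_mod_cast h1
        have h3 : u.2.natDegree + u.2.natDegree + 3 ≤ m := by omega
        rw [two_nsmul]
        exact_mod_cast h3
      · intro h1
        rw [two_nsmul] at h1
        have h2 : u.2.natDegree + u.2.natDegree + 3 ≤ m := by exact_mod_cast h1
        have h3 : u.2.natDegree < (m - 1) / 2 := by omega
        exact_mod_cast h3

theorem Nm_ne_zero (W : WeierstrassCurve K) {u : K[X] × K[X]} (hu : u ≠ 0) : Nm W u ≠ 0 := by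
  intro h
  have h1 := degree_Nm W u
  rw [h, degree_zero] at h1
  apply hu
  have h2 := le_of_le_of_eq (le_max_left (2 • u.1.degree) (2 • u.2.degree + 3)) h1.symm
  have h3 := le_of_le_of_eq (le_max_right (2 • u.1.degree) (2 • u.2.degree + 3)) h1.symm
  refine Prod.ext ?_ ?_
  · by_contra hne
    rw [degree_eq_natDegree hne, two_nsmul] at h2
    exact absurd h2 (by
      intro h4
      have h5 : ((u.1.natDegree + u.1.natDegree : ℕ) : WithBot ℕ) ≤ ⊥ := by exact_mod_cast h4
      exact WithBot.coe_ne_bot (le_bot_iff.1 h5))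
  · by_contra hne
    rw [degree_eq_natDegree hne, two_nsmul] at h3
    exact absurd h3 (by
      intro h4
      have h5 : ((u.2.natDegree + u.2.natDegree + 3 : ℕ) : WithBot ℕ) ≤ ⊥ := by exact_mod_cast h4
      exact WithBot.coe_ne_bot (le_bot_iff.1 h5))

/-- the relation in the form used below -/
theorem exists_relation' (W : WeierstrassCurve K) (n : ℕ) (U : Submodule K (K[X] × K[X]))
    [FiniteDimensional K U] (hU : Module.finrank K U = n) (Λ : K[X] →ₗ[K] K[X]) :
    ∃ (d : ℕ) (Ψ : MvPolynomial (Fin (n + 1)) K), Ψ ≠ 0 ∧ Ψ.IsHomogeneous d ∧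
      ∀ u ∈ U, ∀ c : K, c ≠ 0 → ∀ M : K[X], Λ (Nm W u) = C c * M →
        MvPolynomial.eval (fun i : Fin (n + 1) => M.coeff i) Ψ = 0 := by
  obtain ⟨d, Ψ, h0, hd, h⟩ := exists_relation W n U hU (fun i => (lcoeff K i) ∘ₗ Λ)
  refine ⟨d, Ψ, h0, hd, fun u hu c hc M hM => ?_⟩
  have h1 := h u hu
  have h2 : (fun i : Fin (n + 1) => ((lcoeff K (i : ℕ)) ∘ₗ Λ) (Nm W u)) =
      fun i : Fin (n + 1) => c * M.coeff i := by
    refine _root_.funext fun i => ?_
    rw [LinearMap.comp_apply, hM, lcoeff_apply, coeff_C_mul]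
  rw [h2, eval_smul_of_isHomogeneous hd] at h1
  exact (mul_eq_zero.1 h1).resolve_left (pow_ne_zero _ hc)

/-- the value of `u.1 + u.2 Y` at a point -/
noncomputable def ev (K : Type*) [Field K] {L : Type*} [Field L] [Algebra K L] (t y : L) :
    (K[X] × K[X]) →ₗ[K] L :=
  (aeval t).toLinearMap ∘ₗ LinearMap.fst K K[X] K[X] +
    (LinearMap.mulRight K y) ∘ₗ (aeval t).toLinearMap ∘ₗ LinearMap.snd K K[X] K[X]

theorem ev_apply {L : Type*} [Field L] [Algebra K L] (t y : L) (u : K[X] × K[X]) :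
    ev K t y u = aeval t u.1 + aeval t u.2 * y := rfl

theorem aeval_Nm (W : WeierstrassCurve K) {L : Type*} [Field L] [Algebra K L] {t y : L}
    (h : y ^ 2 + algebraMap K L W.a₁ * t * y + algebraMap K L W.a₃ * y =
      t ^ 3 + algebraMap K L W.a₂ * t ^ 2 + algebraMap K L W.a₄ * t + algebraMap K L W.a₆)
    (u : K[X] × K[X]) (hu : ev K t y u = 0) : aeval t (Nm W u) = 0 := by
  rw [ev_apply] at hu
  have h1 : aeval t (Nm W u) = (aeval t u.1 + aeval t u.2 * y) *
      (aeval t u.1 - aeval t u.2 * (y + algebraMap K L W.a₁ * t + algebraMap K L W.a₃)) := by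
    simp only [Nm, map_sub, map_pow, map_mul, map_add, aeval_C, aeval_X]
    linear_combination (aeval t u.2) ^ 2 * h
  rw [h1, hu, zero_mul]

theorem exists_mem_Vm {L : Type*} [Field L] [Algebra K L] [FiniteDimensional K L] (t y : L) :
    ∃ u ∈ Vm K (Module.finrank K L + 1), u ≠ 0 ∧ ev K t y u = 0 := by
  let f : Vm K (Module.finrank K L + 1) →ₗ[K] L := (ev K t y) ∘ₗ (Submodule.subtype _)
  have h1 : LinearMap.ker f ≠ ⊥ := by
    refine LinearMap.ker_ne_bot_of_finrank_lt ?_
    rw [finrank_Vm (by omega)]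
    omega
  obtain ⟨u, hu, hu0⟩ := Submodule.exists_mem_ne_zero_of_ne_bot h1
  refine ⟨u.1, u.2, fun h => hu0 (Subtype.ext h), ?_⟩
  exact hu

/-- the functions vanishing at the point `R` -/
noncomputable def UR (K : Type*) [Field K] (n : ℕ) (R : K × K) :
    Submodule K (K[X] × K[X]) := Vm K (n + 1) ⊓ LinearMap.ker (ev K R.1 R.2)

theorem finrank_UR (n : ℕ) (R : K × K) :
    FiniteDimensional K (UR K n R) ∧ Module.finrank K (UR K n R) = n := by
  let f : Vm K (n + 1) →ₗ[K] K := (ev K R.1 R.2) ∘ₗ (Submodule.subtype _)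
  have hmap : UR K n R = (LinearMap.ker f).map (Submodule.subtype _) := by
    ext u
    rw [UR, Submodule.mem_inf, Submodule.mem_map]
    constructor
    · rintro ⟨h1, h2⟩
      exact ⟨⟨u, h1⟩, h2, rfl⟩
    · rintro ⟨v, hv, rfl⟩
      exact ⟨v.2, hv⟩
  have h1 : ((1, 0) : K[X] × K[X]) ∈ Vm K (n + 1) := by
    rw [Vm, Submodule.mem_prod, mem_degreeLT, mem_degreeLT]
    constructor
    · change (1 : K[X]).degree < _
      rw [degree_one]
      exact_mod_cast Nat.succ_pos _
    · change (0 : K[X]).degree < _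
      rw [degree_zero]
      exact WithBot.bot_lt_coe _
  have hsurj : Function.Surjective f := by
    intro c
    refine ⟨c • ⟨(1, 0), h1⟩, ?_⟩
    rw [map_smul]
    change c • ev K R.1 R.2 (1, 0) = c
    rw [ev_apply]
    simp
  have h2 := LinearMap.finrank_range_add_finrank_ker f
  rw [LinearMap.range_eq_top.2 hsurj, finrank_top, Module.finrank_self,
    finrank_Vm (by omega)] at h2
  constructor
  · rw [hmap]
    infer_instance
  · rw [hmap, LinearEquiv.finrank_eq (Submodule.equivMapOfInjective _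
      (Submodule.injective_subtype _) _).symm]
    omega

/-- a left inverse of the multiplication by `X - C r` -/
theorem exists_leftInverse (r : K) : ∃ Λ : K[X] →ₗ[K] K[X], ∀ p, Λ ((X - C r) * p) = p := by
  obtain ⟨g, hg⟩ := LinearMap.exists_leftInverse_of_injective (LinearMap.mulLeft K (X - C r))
    (by
      rw [LinearMap.ker_eq_bot]
      intro p q h
      exact mul_left_cancel₀ (X_sub_C_ne_zero r) h)
  exact ⟨g, fun p => congrArg (fun f : K[X] →ₗ[K] K[X] => f p) hg⟩

section main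

variable {L Ω : Type*} [Field L] [Field Ω] [Algebra K L] [Algebra K Ω]
  [FiniteDimensional K L] [Algebra.IsSeparable K L] [IsAlgClosed Ω]

/-- the dichotomy -/
theorem dichotomy (W : WeierstrassCurve K) (hn : 2 ≤ Module.finrank K L) {t y : L}
    (ht : (minpoly K t).natDegree = Module.finrank K L)
    (h : y ^ 2 + algebraMap K L W.a₁ * t * y + algebraMap K L W.a₃ * y =
      t ^ 3 + algebraMap K L W.a₂ * t ^ 2 + algebraMap K L W.a₄ * t + algebraMap K L W.a₆) :
    (∃ u ∈ Vm K (Module.finrank K L), ∃ c : K, c ≠ 0 ∧ Nm W u = C c * minpoly K t) ∨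
    ∃ R : K × K, (R.2 ^ 2 + W.a₁ * R.1 * R.2 + W.a₃ * R.2 =
      R.1 ^ 3 + W.a₂ * R.1 ^ 2 + W.a₄ * R.1 + W.a₆) ∧ ∃ u ∈ UR K (Module.finrank K L) R,
        ∃ c : K, c ≠ 0 ∧ Nm W u = (X - C R.1) * (C c * minpoly K t) := by
  obtain ⟨u, hu, hu0, huy⟩ := exists_mem_Vm (K := K) t y
  have hint : IsIntegral K t := Algebra.IsIntegral.isIntegral t
  have hdvd : minpoly K t ∣ Nm W u := minpoly.dvd K t (aeval_Nm W h u huy)
  obtain ⟨l, hl⟩ := hdvd
  have hN0 : Nm W u ≠ 0 := Nm_ne_zero W hu0
  have hl0 : l ≠ 0 := by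
    rintro rfl
    rw [mul_zero] at hl
    exact hN0 hl
  have hdeg : (Nm W u).natDegree ≤ Module.finrank K L + 1 :=
    natDegree_le_of_degree_le ((mem_Vm_iff W (by omega) u).1 hu)
  have hmul : (Nm W u).natDegree = Module.finrank K L + l.natDegree := by
    rw [hl, natDegree_mul (minpoly.ne_zero hint) hl0, ht]
  have hl1 : l.natDegree ≤ 1 := by omega
  rcases Nat.lt_or_ge l.natDegree 1 with hlt | hge
  · left
    have hlc : l = C (l.coeff 0) := eq_C_of_natDegree_eq_zero (by omega)
    refine ⟨u, ?_, l.coeff 0, ?_, ?_⟩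
    · rw [mem_Vm_iff W (by omega) u]
      refine degree_le_of_natDegree_le ?_
      omega
    · intro h0
      rw [h0, map_zero] at hlc
      exact hl0 hlc
    · rw [hl, mul_comm]
      conv_lhs => rw [hlc]
  · right
    have hl2 : l.natDegree = 1 := le_antisymm hl1 hge
    obtain ⟨a, ha, b, hab⟩ := natDegree_eq_one.1 hl2
    set r : K := -b / a with hr
    have hlr : l = C a * (X - C r) := by
      rw [← hab, hr, mul_sub, ← C_mul, mul_div_cancel₀ _ ha, C_neg, sub_neg_eq_add]
    have hNr : Nm W u = (X - C r) * (C a * minpoly K t) := by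
      rw [hl, hlr]
      ring
    have heval : u.1.eval r ^ 2 - u.1.eval r * u.2.eval r * (W.a₁ * r + W.a₃) -
        u.2.eval r ^ 2 * (r ^ 3 + W.a₂ * r ^ 2 + W.a₄ * r + W.a₆) = 0 := by
      have h1 := congrArg (eval r) hNr
      simp only [Nm, eval_sub, eval_pow, eval_mul, eval_add, eval_C, eval_X, sub_self,
        zero_mul] at h1
      exact h1
    by_cases hq : u.2.eval r = 0
    · exfalso
      have hp : u.1.eval r = 0 := by
        rw [hq] at heval
        simp only [mul_zero, zero_mul, sub_zero, ne_eq, OfNat.ofNat_ne_zero, not_false_eq_true,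
          zero_pow] at heval
        exact pow_eq_zero_iff (two_ne_zero) |>.1 heval
      obtain ⟨p', hp'⟩ := dvd_iff_isRoot.2 hp
      obtain ⟨q', hq'⟩ := dvd_iff_isRoot.2 hq
      have h2 : Nm W u = (X - C r) * ((X - C r) * Nm W (p', q')) := by
        simp only [Nm, hp', hq']
        ring
      rw [hNr] at h2
      have h3 := mul_left_cancel₀ (X_sub_C_ne_zero r) h2
      have h4 : eval r (minpoly K t) = 0 := by
        have h5 := congrArg (eval r) h3
        simp only [eval_mul, eval_sub, eval_C, eval_X, sub_self, zero_mul] at h5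
        exact (mul_eq_zero.1 h5).resolve_left ha
      have h6 : (minpoly K t).natDegree = 1 := natDegree_eq_of_degree_eq_some
        (degree_eq_one_of_irreducible_of_root (minpoly.irreducible hint) h4)
      omega
    · refine ⟨(r, -(u.1.eval r) / u.2.eval r), ?_, u, ⟨hu, ?_⟩, a, ha, hNr⟩
      · change (-(u.1.eval r) / u.2.eval r) ^ 2 + W.a₁ * r * (-(u.1.eval r) / u.2.eval r) +
          W.a₃ * (-(u.1.eval r) / u.2.eval r) = r ^ 3 + W.a₂ * r ^ 2 + W.a₄ * r + W.a₆
        field_simp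
        linear_combination heval
      · rw [SetLike.mem_coe, LinearMap.mem_ker]
        change ev K r (-(u.1.eval r) / u.2.eval r) u = 0
        rw [ev_apply, coe_aeval_eq_eval, mul_div_cancel₀ _ hq, add_neg_cancel]

/-- the case `L = K` -/
theorem infinite_of_dens_one (W : WeierstrassCurve K) (hn : Module.finrank K L = 1)
    (T : Set L) (hT : Dens K Ω T)
    (hy : ∀ t ∈ T, ∃ y : L,
      y ^ 2 + algebraMap K L W.a₁ * t * y + algebraMap K L W.a₃ * y =
      t ^ 3 + algebraMap K L W.a₂ * t ^ 2 + algebraMap K L W.a₄ * t + algebraMap K L W.a₆) :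
    {R : K × K | R.2 ^ 2 + W.a₁ * R.1 * R.2 + W.a₃ * R.2 =
      R.1 ^ 3 + W.a₂ * R.1 ^ 2 + W.a₄ * R.1 + W.a₆}.Infinite := by
  classical
  intro hfin
  have hcard : Fintype.card (L →ₐ[K] Ω) = 1 := by rw [AlgHom.card, hn]
  obtain ⟨σ, hσ⟩ := Fintype.card_eq_one_iff.1 hcard
  let F : MvPolynomial (L →ₐ[K] Ω) Ω := ∏ R ∈ hfin.toFinset,
    (MvPolynomial.X σ - MvPolynomial.C (algebraMap K Ω R.1))
  have hF : F ≠ 0 := by
    refine Finset.prod_ne_zero_iff.2 fun R _ h => ?_
    have h1 := congrArg (MvPolynomial.eval (fun _ => algebraMap K Ω R.1 + 1)) h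
    rw [map_sub, MvPolynomial.eval_X, MvPolynomial.eval_C, add_sub_cancel_left, map_zero] at h1
    exact one_ne_zero h1
  obtain ⟨t, htT, ht⟩ := hT F hF
  obtain ⟨y, hy⟩ := hy t htT
  have hsurj : Function.Surjective (algebraMap K L) :=
    (bijective_algebraMap_of_linearEquiv
      (LinearEquiv.ofFinrankEq K L (by rw [hn, Module.finrank_self]))).2
  obtain ⟨t', rfl⟩ := hsurj t
  obtain ⟨y', rfl⟩ := hsurj y
  apply ht
  simp only [F, map_prod, map_sub, MvPolynomial.eval_X, MvPolynomial.eval_C, AlgHom.commutes]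
  refine Finset.prod_eq_zero (i := (t', y')) ?_ (by simp)
  rw [Set.Finite.mem_toFinset]
  change y' ^ 2 + W.a₁ * t' * y' + W.a₃ * y' = t' ^ 3 + W.a₂ * t' ^ 2 + W.a₄ * t' + W.a₆
  apply (algebraMap K L).injective
  simp only [map_add, map_mul, map_pow]
  exact hy

/-- **Main Lemma.** -/
theorem infinite_of_dens (W : WeierstrassCurve K)
    (T : Set L) (hT : Dens K Ω T)
    (hy : ∀ t ∈ T, ∃ y : L,
      y ^ 2 + algebraMap K L W.a₁ * t * y + algebraMap K L W.a₃ * y =
      t ^ 3 + algebraMap K L W.a₂ * t ^ 2 + algebraMap K L W.a₄ * t + algebraMap K L W.a₆) :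
    {R : K × K | R.2 ^ 2 + W.a₁ * R.1 * R.2 + W.a₃ * R.2 =
      R.1 ^ 3 + W.a₂ * R.1 ^ 2 + W.a₄ * R.1 + W.a₆}.Infinite := by
  classical
  rcases Nat.lt_or_ge (Module.finrank K L) 2 with hlt | hn
  · have hpos : 0 < Module.finrank K L := Module.finrank_pos
    exact infinite_of_dens_one W (by omega) T hT hy
  intro hfin
  set n := Module.finrank K L with hndef
  have hcard : Fintype.card (L →ₐ[K] Ω) = n := AlgHom.card K L Ω
  obtain ⟨dA, ΨA, hA0, hAd, hA⟩ := exists_relation' W n (Vm K n) (finrank_Vm (by omega))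
    LinearMap.id
  have hB : ∀ R : K × K, ∃ (d : ℕ) (Ψ : MvPolynomial (Fin (n + 1)) K), Ψ ≠ 0 ∧
      Ψ.IsHomogeneous d ∧ ∀ u ∈ UR K n R, ∀ c : K, c ≠ 0 → ∀ M : K[X],
        Nm W u = (X - C R.1) * (C c * M) →
        MvPolynomial.eval (fun i : Fin (n + 1) => M.coeff i) Ψ = 0 := by
    intro R
    obtain ⟨hfd, hfr⟩ := finrank_UR (K := K) n R
    obtain ⟨Λ, hΛ⟩ := exists_leftInverse R.1
    obtain ⟨d, Ψ, h0, hd, h⟩ := exists_relation' W n (UR K n R) hfr Λ
    refine ⟨d, Ψ, h0, hd, fun u hu c hc M hM => h u hu c hc M ?_⟩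
    rw [hM, hΛ]
  choose dB ΨB hB0 hBd hB using hB
  have hmap : ∀ Ψ : MvPolynomial (Fin (n + 1)) K, Ψ ≠ 0 →
      MvPolynomial.map (algebraMap K Ω) Ψ ≠ 0 := by
    intro Ψ hΨ h
    apply hΨ
    apply MvPolynomial.map_injective _ (algebraMap K Ω).injective
    rw [h, map_zero]
  let FA : MvPolynomial (L →ₐ[K] Ω) Ω := FP _ (MvPolynomial.map (algebraMap K Ω) ΨA)
  let FB : K × K → MvPolynomial (L →ₐ[K] Ω) Ω := fun R =>
    FP _ (MvPolynomial.map (algebraMap K Ω) (ΨB R))
  have hFA : FA ≠ 0 := FP_ne_zero hcard (hmap _ hA0) (hAd.map _)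
  have hFB : ∀ R, FB R ≠ 0 := fun R => FP_ne_zero hcard (hmap _ (hB0 R)) ((hBd R).map _)
  let D : MvPolynomial (L →ₐ[K] Ω) Ω := ∏ p ∈ (Finset.univ : Finset (L →ₐ[K] Ω)).offDiag,
    (MvPolynomial.X p.1 - MvPolynomial.X p.2)
  have hD : D ≠ 0 := by
    refine Finset.prod_ne_zero_iff.2 fun p hp h => ?_
    have hne := (Finset.mem_offDiag.1 hp).2.2
    exact hne (MvPolynomial.X_injective (sub_eq_zero.1 h))
  obtain ⟨t, htT, ht⟩ := hT (FA * (∏ R ∈ hfin.toFinset, FB R) * D)
    (mul_ne_zero (mul_ne_zero hFA (Finset.prod_ne_zero_iff.2 fun R _ => hFB R)) hD)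
  rw [map_mul, map_mul, map_prod] at ht
  have htA := left_ne_zero_of_mul (left_ne_zero_of_mul ht)
  have htB := Finset.prod_ne_zero_iff.1 (right_ne_zero_of_mul (left_ne_zero_of_mul ht))
  have htD := right_ne_zero_of_mul ht
  have hinj : Function.Injective fun σ : L →ₐ[K] Ω => σ t := by
    intro σ τ hστ
    by_contra hne
    simp only [D, map_prod, map_sub, MvPolynomial.eval_X] at htD
    exact (Finset.prod_ne_zero_iff.1 htD (σ, τ) (Finset.mem_offDiag.2
      ⟨Finset.mem_univ _, Finset.mem_univ _, hne⟩)) (sub_eq_zero.2 hστ)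
  obtain ⟨y, hy⟩ := hy t htT
  rcases dichotomy W hn (natDegree_minpoly_eq t hinj) hy with ⟨u, hu, c, hc, hNu⟩ |
    ⟨R, hR, u, hu, c, hc, hNu⟩
  · exact htA (eval_FP_eq_zero t hinj ΨA (hA u hu c hc _ hNu))
  · exact htB R ((Set.Finite.mem_toFinset hfin).2 hR)
      (eval_FP_eq_zero t hinj (ΨB R) (hB R u hu c hc _ hNu))

end main

end Pool.Agent.Helper51.EC2
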