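import Pool.Agent.Helper51.EC2.Fix
import Pool.Agent.Helper51.EC2.Interp

set_option autoImplicit false

/-!
Elliptic curves over fields of characteristic other than two.
-/

namespace Pool.Agent.Helper51.EC2

open Polynomial

variable {K : Type*} [Field K]

/-- many `x`-coordinates over a field that contains the roots of the two-torsion polynomial -/
theorem exists_scaling {L : Type*} [Field L] [Infinite L]
    (h2 : (2 : L) ≠ 0) (hL : Pool.Agent.Helper51.KL.FinIdx L 2) (a₁ a₃ q₂ q₁ q₀ : L)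
    (θ : Fin 3 → L)
    (hθ : ∀ x : L, 4 * x ^ 3 + q₂ * x ^ 2 + q₁ * x + q₀ = 4 * ((x - θ 0) * (x - θ 1) * (x - θ 2)))
    (G : Finset L) : ∃ t₀ : L, t₀ ≠ 0 ∧ ∀ g ∈ G, g ≠ 0 →
      ∃ y : L, (2 * y + a₁ * (t₀ * g ^ 2) + a₃) ^ 2 =
        4 * (t₀ * g ^ 2) ^ 3 + q₂ * (t₀ * g ^ 2) ^ 2 + q₁ * (t₀ * g ^ 2) + q₀ := by
  classical
  obtain ⟨s, hs0, ⟨z, hz0, hz⟩, hs⟩ := Pool.Agent.Helper51.KL.exists_small hL
    (Finset.image₂ (fun g i => -θ i / g ^ 2) G Finset.univ) 1 one_ne_zero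
  rw [one_mul] at hz
  refine ⟨s⁻¹, inv_ne_zero hs0, fun g hg hg0 => ?_⟩
  have hsq : ∀ i, ∃ w : L, s⁻¹ * g ^ 2 - θ i = w ^ 2 := by
    intro i
    obtain ⟨y, -, hy⟩ := hs (-θ i / g ^ 2) (Finset.mem_image₂.2 ⟨g, hg, i, Finset.mem_univ _, rfl⟩)
    refine ⟨g / z * y, ?_⟩
    rw [mul_pow, ← hy, div_pow, ← hz]
    field_simp
    ring
  choose w hw using hsq
  refine ⟨(2 * (w 0 * w 1 * w 2) - a₁ * (s⁻¹ * g ^ 2) - a₃) / 2, ?_⟩
  rw [hθ, hw, hw, hw, mul_div_cancel₀ _ h2]
  ring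

theorem infinite_of_charNeTwo [Infinite K] (W : WeierstrassCurve K) [W.IsElliptic]
    (h2 : (2 : K) ≠ 0)
    (hK : ∃ S : Set (Field.absoluteGaloisGroup K), S.Finite ∧
      closure ((Subgroup.closure S : Subgroup (Field.absoluteGaloisGroup K)) :
        Set (Field.absoluteGaloisGroup K)) = Set.univ) :
    {R : K × K | R.2 ^ 2 + W.a₁ * R.1 * R.2 + W.a₃ * R.2 =
      R.1 ^ 3 + W.a₂ * R.1 ^ 2 + W.a₄ * R.1 + W.a₆}.Infinite := by
  classical
  set P := W.twoTorsionPolynomial with hP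
  have h4 : (4 : K) ≠ 0 := by
    have : (4 : K) = 2 * 2 := by norm_num
    rw [this]
    exact mul_ne_zero h2 h2
  have hPa : P.a ≠ 0 := h4
  have hdisc : P.discr ≠ 0 :=
    W.twoTorsionPolynomial_discr_ne_zero (isUnit_iff_ne_zero.2 h2) W.isUnit_Δ
  have hspl : (P.toPoly.map (algebraMap K (AlgebraicClosure K))).Splits := IsAlgClosed.splits _
  have hnodup := (Cubic.discr_ne_zero_iff_roots_nodup hPa hspl).1 hdisc
  obtain ⟨x, y, z, hxyz⟩ := (Cubic.splits_iff_roots_eq_three hPa).1 hspl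
  have hprod := Cubic.eq_prod_three_roots hPa hxyz
  have hP0 : P.toPoly ≠ 0 := Cubic.ne_zero_of_a_ne_zero hPa
  have hPsep : P.toPoly.Separable := by
    rw [← nodup_aroots_iff_of_splits hP0 hspl]
    rw [Cubic.map_roots] at hnodup
    exact hnodup
  let S : Set (AlgebraicClosure K) := {x, y, z}
  have hroot : ∀ θ ∈ S, aeval θ P.toPoly = 0 := by
    intro θ hθ
    rw [← eval_map_algebraMap, ← Cubic.map_toPoly, hprod]
    rcases hθ with rfl | rfl | rfl <;> simp
  have hsep : ∀ θ ∈ S, IsSeparable K θ := fun θ hθ =>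
    hPsep.of_dvd (minpoly.dvd K θ (hroot θ hθ))
  have hfin : Finite S := Set.toFinite _
  let L : IntermediateField K (AlgebraicClosure K) := IntermediateField.adjoin K S
  have hLfd : FiniteDimensional K L :=
    IntermediateField.finiteDimensional_adjoin fun θ hθ => (hsep θ hθ).isIntegral
  have hLsep : Algebra.IsSeparable K L :=
    (IntermediateField.isSeparable_adjoin_iff_isSeparable K (AlgebraicClosure K)).2 hsep
  have hLinf : Infinite L := Infinite.of_injective _ (algebraMap K L).injective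
  have h2L : (2 : L) ≠ 0 := by
    intro h
    apply h2
    apply (algebraMap K L).injective
    rw [map_ofNat, map_zero, h]
  have hFI : Pool.Agent.Helper51.KL.FinIdx L 2 :=
    finIdx_of_fix (exists_fix hK L) (by exact_mod_cast h2L)
  have hmem : ∀ θ ∈ S, θ ∈ L := fun θ hθ => IntermediateField.subset_adjoin K S hθ
  let θ : Fin 3 → L := ![⟨x, hmem x (by simp [S])⟩, ⟨y, hmem y (by simp [S])⟩,
    ⟨z, hmem z (by simp [S])⟩]
  have hθ : ∀ t : L, 4 * t ^ 3 + algebraMap K L W.b₂ * t ^ 2 + algebraMap K L (2 * W.b₄) * t +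
      algebraMap K L W.b₆ = 4 * ((t - θ 0) * (t - θ 1) * (t - θ 2)) := by
    intro t
    have h5 := congrArg (eval (t : AlgebraicClosure K)) hprod
    apply Subtype.ext
    simp only [Cubic.toPoly, Cubic.map, hP, WeierstrassCurve.twoTorsionPolynomial, eval_add,
      eval_mul, eval_C, eval_X, eval_pow, eval_sub, map_ofNat] at h5
    have h4c : ((4 : L) : AlgebraicClosure K) = 4 := map_ofNat (algebraMap L _) 4
    have h2c : algebraMap K (AlgebraicClosure K) 2 = 2 := map_ofNat _ 2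
    push_cast
    simp only [θ, Matrix.cons_val_zero, Matrix.cons_val_one, Matrix.cons_val, h4c, h2c]
    have h4e : eval (t : AlgebraicClosure K) (4 : (AlgebraicClosure K)[X]) = 4 := eval_ofNat 4 _
    rw [map_mul, h2c, h4e] at h5
    linear_combination h5
  refine infinite_of_dens (Ω := AlgebraicClosure K) W
    {t : L | ∃ y : L, y ^ 2 + algebraMap K L W.a₁ * t * y + algebraMap K L W.a₃ * y =
      t ^ 3 + algebraMap K L W.a₂ * t ^ 2 + algebraMap K L W.a₄ * t + algebraMap K L W.a₆}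
    (dens_of_scaling _ fun G => ?_) fun t ht => ht
  obtain ⟨t₀, ht₀, hG⟩ := exists_scaling h2L hFI (algebraMap K L W.a₁) (algebraMap K L W.a₃)
    (algebraMap K L W.b₂) (algebraMap K L (2 * W.b₄)) (algebraMap K L W.b₆) θ hθ G
  refine ⟨t₀, ht₀, fun g hg hg0 => ?_⟩
  obtain ⟨y, hy⟩ := hG g hg hg0
  refine ⟨y, ?_⟩
  have h4L : (4 : L) ≠ 0 := by
    have : (4 : L) = 2 * 2 := by norm_num
    rw [this]
    exact mul_ne_zero h2L h2L
  apply mul_left_cancel₀ h4L
  simp only [WeierstrassCurve.b₂, WeierstrassCurve.b₄, WeierstrassCurve.b₆, map_add, map_mul,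
    map_pow, map_ofNat] at hy
  linear_combination hy

end Pool.Agent.Helper51.EC2
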