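import Pool.Agent.Helper51.EC2.Grid

set_option autoImplicit false

/-!
Kernels of additive maps with finite codomain are dense.
-/

namespace Pool.Agent.Helper51.EC2

open MvPolynomial

variable {K L Ω : Type*} [Field K] [Field L] [Field Ω] [Algebra K L] [Algebra K Ω]
  [FiniteDimensional K L] [Algebra.IsSeparable K L] [IsAlgClosed Ω]

/-- substitution of an affine function `α X + β` -/
noncomputable def aff (α β : L) (F : MvPolynomial (L →ₐ[K] Ω) Ω) :
    MvPolynomial (L →ₐ[K] Ω) Ω :=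
  aeval (fun σ => C (σ α) * X σ + C (σ β)) F

omit [FiniteDimensional K L] [Algebra.IsSeparable K L] [IsAlgClosed Ω] in
theorem eval_aff' (α β : L) (F : MvPolynomial (L →ₐ[K] Ω) Ω) (v : (L →ₐ[K] Ω) → Ω) :
    eval v (aff α β F) = eval (fun σ => σ α * v σ + σ β) F := by
  have h2 : eval v (aff α β F) =
      eval (fun σ => eval v (C (σ α) * X σ + C (σ β))) F := by
    rw [aff, ← coe_aeval_eq_eval, ← coe_aeval_eq_eval]
    simp only [RingHom.coe_coe]
    rw [← AlgHom.comp_apply, comp_aeval]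
  rw [h2]
  refine congrArg (fun v : (L →ₐ[K] Ω) → Ω => eval v F) (_root_.funext fun σ => ?_)
  simp only [map_mul, map_add, eval_C, eval_X]

omit [FiniteDimensional K L] [Algebra.IsSeparable K L] [IsAlgClosed Ω] in
theorem eval_aff (α β x : L) (F : MvPolynomial (L →ₐ[K] Ω) Ω) :
    eval (fun σ => σ x) (aff α β F) = eval (fun σ => σ (α * x + β)) F := by
  rw [eval_aff']
  refine congrArg (fun v : (L →ₐ[K] Ω) → Ω => eval v F) (_root_.funext fun σ => ?_)
  simp only [map_mul, map_add]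

omit [FiniteDimensional K L] [Algebra.IsSeparable K L] in
theorem aff_ne_zero {α : L} (hα : α ≠ 0) (β : L) {F : MvPolynomial (L →ₐ[K] Ω) Ω} (hF : F ≠ 0) :
    aff α β F ≠ 0 := by
  intro h
  apply hF
  refine MvPolynomial.funext fun v => ?_
  rw [map_zero]
  have h1 := eval_aff' α β F fun σ => (v σ - σ β) / σ α
  rw [h, map_zero] at h1
  rw [h1]
  refine congrArg (fun v : (L →ₐ[K] Ω) → Ω => eval v F) (_root_.funext fun σ => ?_)
  have h2 : σ α ≠ 0 := by
    rw [ne_eq, map_eq_zero]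
    exact hα
  rw [mul_div_cancel₀ _ h2, sub_add_cancel]

theorem dens_ker [Infinite K] {B : Type*} [AddCommGroup B] [Finite B] (φ : L →+ B) :
    Dens K Ω {μ : L | φ μ = 0} := by
  classical
  let _ : Fintype B := Fintype.ofFinite B
  intro F hF
  have hv : ∀ b : B, ∃ v : L, (∃ u, φ u = b) → φ v = b := by
    intro b
    by_cases h : ∃ u, φ u = b
    · obtain ⟨u, hu⟩ := h
      exact ⟨u, fun _ => hu⟩
    · exact ⟨0, fun h' => absurd h' h⟩
  choose v hv using hv
  obtain ⟨x, -, hx⟩ := dens_univ (K := K) (L := L) (Ω := Ω) (∏ b : B, aff 1 (-v b) F)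
    (Finset.prod_ne_zero_iff.2 fun b _ => aff_ne_zero one_ne_zero _ hF)
  rw [map_prod, Finset.prod_ne_zero_iff] at hx
  have h1 := hx (φ x) (Finset.mem_univ _)
  rw [eval_aff, one_mul, ← sub_eq_add_neg] at h1
  refine ⟨x - v (φ x), ?_, h1⟩
  change φ (x - v (φ x)) = 0
  rw [map_sub, hv (φ x) ⟨x, rfl⟩, sub_self]

end Pool.Agent.Helper51.EC2
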