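import Pool.Agent.Helper51.EC2.Fix
import Pool.Agent.Helper51.EC2.Interp
import Pool.Agent.Helper51.EC2.Kernel

set_option autoImplicit false

/-!
Elliptic curves over fields of characteristic two.
-/

namespace Pool.Agent.Helper51.EC2

open MvPolynomial

section dens

variable {K L Ω : Type*} [Field K] [Field L] [Field Ω] [Algebra K L] [Algebra K Ω]
  [FiniteDimensional K L] [Algebra.IsSeparable K L] [IsAlgClosed Ω]

/-- the ordinary case -/
theorem dens_ordinary [Infinite K] [CharP L 2] [Finite (L ⧸ (asMap L).range)]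
    (a₁ a₃ α γ δ : L) (ha : a₁ ≠ 0) :
    Dens K Ω {x : L | ∃ u z : L, u ≠ 0 ∧ x = (u + a₃) / a₁ ∧
      z ^ 2 + z = α * u + γ / u + δ / u ^ 2} := by
  classical
  have hLinf : Infinite L := Infinite.of_injective _ (algebraMap K L).injective
  have h2 : (2 : L) = 0 := CharTwo.two_eq_zero
  let A := L ⧸ (asMap L).range
  let _ : Fintype A := Fintype.ofFinite A
  let lam : L →+ A := QuotientAddGroup.mk' (asMap L).range
  have hlam : ∀ w, lam w = 0 → ∃ z : L, z ^ 2 + z = w := by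
    intro w hw
    obtain ⟨z, hz⟩ := (QuotientAddGroup.eq_zero_iff w).1 hw
    exact ⟨z, hz⟩
  obtain ⟨E, hE⟩ := Infinite.exists_subset_card_eq L (Fintype.card A + 1)
  let D : Finset L := E.offDiag.image fun p => p.1 - p.2
  have hD0 : ∀ X ∈ D, X ≠ 0 := by
    intro X hX
    obtain ⟨p, hp, rfl⟩ := Finset.mem_image.1 hX
    exact sub_ne_zero.2 (Finset.mem_offDiag.1 hp).2.2
  intro F hF
  -- the additive map
  let φ : L →+ (D → A) :=
    { toFun := fun μ X => lam (α * (μ / (X : L)))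
      map_zero' := by
        funext X
        rw [zero_div, mul_zero, map_zero]
        rfl
      map_add' := fun μ ν => by
        funext X
        rw [add_div, mul_add, map_add]
        rfl }
  obtain ⟨μ, hμ, hμF⟩ := dens_ker (K := K) (Ω := Ω) φ
    ((∏ X ∈ D, aff (1 / (X * a₁)) (a₃ / a₁) F) * ∏ σ, X σ)
    (mul_ne_zero (Finset.prod_ne_zero_iff.2 fun X hX =>
      aff_ne_zero (one_div_ne_zero (mul_ne_zero (hD0 X hX) ha)) _ hF)
      (Finset.prod_ne_zero_iff.2 fun σ _ => X_ne_zero σ))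
  rw [map_mul, map_prod, map_prod] at hμF
  have h1 := Finset.prod_ne_zero_iff.1 (left_ne_zero_of_mul hμF)
  have hμ0 : μ ≠ 0 := by
    rintro rfl
    apply right_ne_zero_of_mul hμF
    have hne : Nonempty (L →ₐ[K] Ω) := by
      rw [← Fintype.card_pos_iff, AlgHom.card]
      exact Module.finrank_pos
    obtain ⟨σ⟩ := hne
    refine Finset.prod_eq_zero (Finset.mem_univ σ) ?_
    rw [eval_X, map_zero]
  -- pigeonhole
  obtain ⟨e, he, e', he', hne, hee⟩ := Finset.exists_ne_map_eq_of_card_lt_of_maps_to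
    (s := E) (t := (Finset.univ : Finset A)) (by rw [hE, Finset.card_univ]; omega)
    (f := fun e => lam (γ * (e / μ) + δ * (e / μ) ^ 2)) (fun _ _ => Finset.mem_univ _)
  set X := e - e' with hX
  have hXD : X ∈ D := Finset.mem_image.2 ⟨(e, e'), Finset.mem_offDiag.2 ⟨he, he', hne⟩, rfl⟩
  have hX0 : X ≠ 0 := hD0 X hXD
  have hq : lam (γ * (X / μ) + δ * (X / μ) ^ 2) = 0 := by
    have h3 : γ * (X / μ) + δ * (X / μ) ^ 2 = (γ * (e / μ) + δ * (e / μ) ^ 2) -
        (γ * (e' / μ) + δ * (e' / μ) ^ 2) := by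
      rw [hX, sub_div]
      linear_combination (δ * (e' / μ) ^ 2 - δ * (e / μ) * (e' / μ)) * h2
    rw [h3, map_sub]
    exact sub_eq_zero.2 hee
  have hα : lam (α * (μ / X)) = 0 := congrFun hμ ⟨X, hXD⟩
  obtain ⟨z, hz⟩ := hlam (α * (μ / X) + (γ * (X / μ) + δ * (X / μ) ^ 2)) (by
    rw [map_add, hα, hq, add_zero])
  refine ⟨(μ / X + a₃) / a₁, ⟨μ / X, z, div_ne_zero hμ0 hX0, rfl, ?_⟩, ?_⟩
  · rw [hz]
    field_simp
    ring
  · have h4 := h1 X hXD
    rw [eval_aff] at h4
    have h5 : 1 / (X * a₁) * μ + a₃ / a₁ = (μ / X + a₃) / a₁ := by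
      field_simp
    rwa [h5] at h4

/-- the supersingular case -/
theorem dens_supersingular [Infinite K] [CharP L 2] [Finite (L ⧸ (asMap L).range)]
    (c₃ c₂ c₁ : L) :
    Dens K Ω {x : L | ∃ z : L, z ^ 2 + z = c₃ * x ^ 3 + c₂ * x ^ 2 + c₁ * x} := by
  classical
  have h2 : (2 : L) = 0 := CharTwo.two_eq_zero
  let A := L ⧸ (asMap L).range
  let lam : L →+ A := QuotientAddGroup.mk' (asMap L).range
  have hlam : ∀ w, lam w = 0 → ∃ z : L, z ^ 2 + z = w := by
    intro w hw
    obtain ⟨z, hz⟩ := (QuotientAddGroup.eq_zero_iff w).1 hw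
    exact ⟨z, hz⟩
  intro F hF
  let r : L → L → Prop := fun s s' => lam (c₃ * (s ^ 2 * s' + s * s' ^ 2)) = 0 ∧
    eval (fun σ : L →ₐ[K] Ω => σ (s' - s)) F ≠ 0
  obtain ⟨s, -, hs⟩ := exists_seq_of_forall_finset_exists (fun _ : L => True) r (by
    intro T _
    let φ : L →+ (T → A) :=
      { toFun := fun μ s => lam (c₃ * ((s : L) ^ 2 * μ + s * μ ^ 2))
        map_zero' := by
          funext s
          rw [mul_zero, zero_pow two_ne_zero, mul_zero, add_zero, mul_zero, map_zero]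
          rfl
        map_add' := fun μ ν => by
          funext s
          change lam _ = lam _ + lam _
          rw [← map_add]
          congr 1
          linear_combination c₃ * s * μ * ν * h2 }
    obtain ⟨μ, hμ, hμF⟩ := dens_ker (K := K) (Ω := Ω) φ (∏ s ∈ T, aff 1 (-s) F)
      (Finset.prod_ne_zero_iff.2 fun s _ => aff_ne_zero one_ne_zero _ hF)
    rw [map_prod] at hμF
    refine ⟨μ, trivial, fun s hs => ⟨congrFun hμ ⟨s, hs⟩, ?_⟩⟩
    have h4 := Finset.prod_ne_zero_iff.1 hμF s hs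
    rw [eval_aff, one_mul, ← sub_eq_add_neg] at h4
    exact h4)
  obtain ⟨i, j, hij, hh⟩ := Finite.exists_ne_map_eq_of_infinite
    (fun i => lam (c₃ * s i ^ 3 + c₂ * s i ^ 2 + c₁ * s i))
  have main : ∀ i j, i < j → lam (c₃ * s i ^ 3 + c₂ * s i ^ 2 + c₁ * s i) =
      lam (c₃ * s j ^ 3 + c₂ * s j ^ 2 + c₁ * s j) →
      ∃ t ∈ {x : L | ∃ z : L, z ^ 2 + z = c₃ * x ^ 3 + c₂ * x ^ 2 + c₁ * x},
        eval (fun σ : L →ₐ[K] Ω => σ t) F ≠ 0 := by
    intro i j hij hh
    obtain ⟨h3, h4⟩ := hs i j hij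
    refine ⟨s j - s i, ?_, h4⟩
    refine hlam _ ?_
    have h5 : c₃ * (s j - s i) ^ 3 + c₂ * (s j - s i) ^ 2 + c₁ * (s j - s i) =
        (c₃ * s j ^ 3 + c₂ * s j ^ 2 + c₁ * s j) - (c₃ * s i ^ 3 + c₂ * s i ^ 2 + c₁ * s i) +
        c₃ * (s i ^ 2 * s j + s i * s j ^ 2) := by
      linear_combination (c₃ * s i ^ 2 * s j - 2 * c₃ * s i * s j ^ 2 + c₂ * s i ^ 2 -
        c₂ * s i * s j) * h2
    rw [h5, map_add, map_sub, hh, sub_self, h3, add_zero]
  rcases lt_or_gt_of_ne hij with h | h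
  · exact main i j h hh
  · exact main j i h hh.symm

end dens

section main

variable {K : Type*} [Field K]

/-- a finite separable extension containing a root of `z ^ 2 + z = β` -/
theorem exists_ext [Infinite K] [CharP K 2]
    (hK : ∃ S : Set (Field.absoluteGaloisGroup K), S.Finite ∧
      closure ((Subgroup.closure S : Subgroup (Field.absoluteGaloisGroup K)) :
        Set (Field.absoluteGaloisGroup K)) = Set.univ) (β : K) :
    ∃ L : IntermediateField K (AlgebraicClosure K), ∃ _ : FiniteDimensional K L,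
      ∃ _ : Algebra.IsSeparable K L, ∃ _ : CharP L 2,
        Finite (L ⧸ (asMap L).range) ∧ ∃ z : L, z ^ 2 + z = algebraMap K L β := by
  classical
  have h2 : (2 : K) = 0 := CharTwo.two_eq_zero
  have hd : (Polynomial.X ^ 2 + Polynomial.X -
      Polynomial.C (algebraMap K (AlgebraicClosure K) β) :
      Polynomial (AlgebraicClosure K)).degree = 2 := by compute_degree!
  obtain ⟨z, hz⟩ := IsAlgClosed.exists_root _ (by rw [hd]; norm_num :
    (Polynomial.X ^ 2 + Polynomial.X - Polynomial.C (algebraMap K (AlgebraicClosure K) β) :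
      Polynomial (AlgebraicClosure K)).degree ≠ 0)
  simp only [Polynomial.IsRoot, Polynomial.eval_sub, Polynomial.eval_add, Polynomial.eval_pow,
    Polynomial.eval_X, Polynomial.eval_C] at hz
  have hz' : z ^ 2 + z = algebraMap K (AlgebraicClosure K) β := sub_eq_zero.1 hz
  have hsep : IsSeparable K z := by
    have hs : (Polynomial.X ^ 2 + Polynomial.X - Polynomial.C β : Polynomial K).Separable := by
      refine ⟨0, 1, ?_⟩
      rw [zero_mul, one_mul, zero_add]
      simp only [Polynomial.derivative_sub, Polynomial.derivative_add,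
        Polynomial.derivative_X_pow, Polynomial.derivative_X, Polynomial.derivative_C, sub_zero]
      rw [Nat.cast_ofNat, h2, Polynomial.C_0, zero_mul, zero_add]
    refine hs.of_dvd (minpoly.dvd K _ ?_)
    simp only [map_sub, map_add, map_pow, Polynomial.aeval_X, Polynomial.aeval_C, hz', sub_self]
  let S : Set (AlgebraicClosure K) := {z}
  have hS : ∀ θ ∈ S, IsSeparable K θ := fun θ hθ => by
    rw [Set.mem_singleton_iff.1 hθ]
    exact hsep
  have hfin : Finite S := Set.toFinite _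
  let L : IntermediateField K (AlgebraicClosure K) := IntermediateField.adjoin K S
  have hLfd : FiniteDimensional K L :=
    IntermediateField.finiteDimensional_adjoin fun θ hθ => (hS θ hθ).isIntegral
  have hLsep : Algebra.IsSeparable K L :=
    (IntermediateField.isSeparable_adjoin_iff_isSeparable K (AlgebraicClosure K)).2 hS
  have hchar : CharP L 2 := charP_of_injective_algebraMap (algebraMap K L).injective 2
  refine ⟨L, hLfd, hLsep, hchar, finite_as (exists_fix hK L),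
    ⟨z, IntermediateField.subset_adjoin K S (Set.mem_singleton z)⟩, ?_⟩
  exact Subtype.ext hz'

theorem infinite_of_charTwo [Infinite K] [CharP K 2] (W : WeierstrassCurve K)
    (hW : W.a₁ ≠ 0 ∨ W.a₃ ≠ 0)
    (hK : ∃ S : Set (Field.absoluteGaloisGroup K), S.Finite ∧
      closure ((Subgroup.closure S : Subgroup (Field.absoluteGaloisGroup K)) :
        Set (Field.absoluteGaloisGroup K)) = Set.univ) :
    {R : K × K | R.2 ^ 2 + W.a₁ * R.1 * R.2 + W.a₃ * R.2 =
      R.1 ^ 3 + W.a₂ * R.1 ^ 2 + W.a₄ * R.1 + W.a₆}.Infinite := by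
  classical
  by_cases ha : W.a₁ = 0
  · have ha3 : W.a₃ ≠ 0 := hW.resolve_left fun h => h ha
    obtain ⟨L, hLfd, hLsep, hchar, hfin, β, hβ⟩ := exists_ext hK (W.a₆ / W.a₃ ^ 2)
    have h2 : (2 : L) = 0 := CharTwo.two_eq_zero
    have ha3L : algebraMap K L W.a₃ ≠ 0 := by
      rw [ne_eq, map_eq_zero]
      exact ha3
    refine infinite_of_dens (Ω := AlgebraicClosure K) W _
      (dens_supersingular (K := K) (L := L) (1 / (algebraMap K L W.a₃) ^ 2)
        (algebraMap K L W.a₂ / (algebraMap K L W.a₃) ^ 2)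
        (algebraMap K L W.a₄ / (algebraMap K L W.a₃) ^ 2)) ?_
    rintro x ⟨z, hz⟩
    refine ⟨algebraMap K L W.a₃ * (z + β), ?_⟩
    rw [map_div₀, map_pow] at hβ
    rw [ha, map_zero]
    field_simp at hz hβ
    linear_combination hz + hβ + (algebraMap K L W.a₃) ^ 2 * z * β * h2
  · obtain ⟨L, hLfd, hLsep, hchar, hfin, β, hβ⟩ := exists_ext hK
      (W.a₃ / W.a₁ ^ 3 + W.a₂ / W.a₁ ^ 2)
    have h2 : (2 : L) = 0 := CharTwo.two_eq_zero
    set a₁ := algebraMap K L W.a₁ with ha1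
    set a₂ := algebraMap K L W.a₂ with ha2
    set a₃ := algebraMap K L W.a₃ with ha3
    set a₄ := algebraMap K L W.a₄ with ha4
    set a₆ := algebraMap K L W.a₆ with ha6
    have ha1L : a₁ ≠ 0 := by
      rw [ne_eq, ha1, map_eq_zero]
      exact ha
    refine infinite_of_dens (Ω := AlgebraicClosure K) W _
      (dens_ordinary (K := K) (L := L) a₁ a₃ (1 / a₁ ^ 3) (a₃ ^ 2 / a₁ ^ 3 + a₄ / a₁)
        (a₃ ^ 3 / a₁ ^ 3 + a₂ * a₃ ^ 2 / a₁ ^ 2 + a₄ * a₃ / a₁ + a₆) ha1L) ?_
    rintro x ⟨u, z, hu, rfl, hz⟩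
    refine ⟨u * (z + β), ?_⟩
    rw [map_add, map_div₀, map_div₀, map_pow, map_pow, ← ha1, ← ha2, ← ha3] at hβ
    change (u * (z + β)) ^ 2 + a₁ * ((u + a₃) / a₁) * (u * (z + β)) + a₃ * (u * (z + β)) =
      ((u + a₃) / a₁) ^ 3 + a₂ * ((u + a₃) / a₁) ^ 2 + a₄ * ((u + a₃) / a₁) + a₆
    have e1 : (u * (z + β)) ^ 2 + a₁ * ((u + a₃) / a₁) * (u * (z + β)) + a₃ * (u * (z + β)) =
        u ^ 2 * (z ^ 2 + z) + u ^ 2 * (β ^ 2 + β) + 2 * (u ^ 2 * z * β + a₃ * u * (z + β)) := by
      rw [mul_div_cancel₀ _ ha1L]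
      ring
    rw [e1, hz, hβ, h2, zero_mul, add_zero]
    field_simp
    linear_combination (-(u * a₃ * a₁ * a₂) - u * a₃ ^ 2 - u ^ 2 * a₃) * h2

end main

end Pool.Agent.Helper51.EC2
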