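import Mathlib

set_option autoImplicit false

/-!
Subsets of a finite separable extension `L` of an infinite field `K` that are dense in the Weil
restriction of the affine line.
-/

namespace Pool.Agent.Helper51.EC2

open MvPolynomial

variable {K L Ω : Type*} [Field K] [Field L] [Field Ω] [Algebra K L] [Algebra K Ω]
  [FiniteDimensional K L] [Algebra.IsSeparable K L] [IsAlgClosed Ω]

/-- no nonzero polynomial in the conjugates vanishes on `T` -/
def Dens (K : Type*) {L : Type*} (Ω : Type*) [Field K] [Field L] [Field Ω] [Algebra K L]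
    [Algebra K Ω] (T : Set L) : Prop :=
  ∀ F : MvPolynomial (L →ₐ[K] Ω) Ω, F ≠ 0 → ∃ t ∈ T, eval (fun σ => σ t) F ≠ 0

omit [FiniteDimensional K L] [Algebra.IsSeparable K L] [IsAlgClosed Ω] in
theorem Dens.mono {T T' : Set L} (h : Dens K Ω T) (hT : T ⊆ T') : Dens K Ω T' := by
  intro F hF
  obtain ⟨t, ht, h1⟩ := h F hF
  exact ⟨t, hT ht, h1⟩

/-- a basis indexed by the embeddings, with invertible matrix of conjugates -/
theorem exists_basis (K L Ω : Type*) [Field K] [Field L] [Field Ω] [Algebra K L] [Algebra K Ω]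
    [FiniteDimensional K L] [Algebra.IsSeparable K L] [IsAlgClosed Ω] :
    ∃ b : (L →ₐ[K] Ω) → L, ∀ w : (L →ₐ[K] Ω) → Ω, ∃ a : (L →ₐ[K] Ω) → Ω,
      ∀ σ : L →ₐ[K] Ω, ∑ j, a j * σ (b j) = w σ := by
  classical
  let e : (L →ₐ[K] Ω) ≃ Fin (Module.finrank K L) :=
    Fintype.equivFinOfCardEq (AlgHom.card K L Ω)
  let b : Module.Basis (L →ₐ[K] Ω) K L := (Module.finBasis K L).reindex e.symm
  refine ⟨b, ?_⟩
  let B : Matrix (L →ₐ[K] Ω) (L →ₐ[K] Ω) Ω := Matrix.of fun σ j => σ (b j)
  have hinj : Function.Injective B.vecMul := by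
    have h0 : ∀ c : (L →ₐ[K] Ω) → Ω, Matrix.vecMul c B = 0 → c = 0 := by
      intro c hc
      have hli := linearIndependent_toLinearMap K L Ω
      rw [Fintype.linearIndependent_iff] at hli
      refine funext fun σ => hli c ?_ σ
      refine b.ext fun j => ?_
      have h1 := congrFun hc j
      simp only [Matrix.vecMul, dotProduct, B, Matrix.of_apply, Pi.zero_apply] at h1
      rw [LinearMap.sum_apply, LinearMap.zero_apply, ← h1]
      rfl
    intro c c' h
    have h1 := h0 (c - c') (by rw [Matrix.sub_vecMul]; exact sub_eq_zero.2 h)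
    exact sub_eq_zero.1 h1
  have hsurj : Function.Surjective B.mulVec :=
    Matrix.mulVec_surjective_iff_isUnit.2 (Matrix.vecMul_injective_iff_isUnit.1 hinj)
  intro w
  obtain ⟨a, ha⟩ := hsurj w
  refine ⟨a, fun σ => ?_⟩
  rw [← ha]
  simp only [Matrix.mulVec, dotProduct, B, Matrix.of_apply]
  exact Finset.sum_congr rfl fun j _ => mul_comm _ _

theorem totalDegree_aeval_le {σ τ R : Type*} [CommRing R] (F : MvPolynomial σ R)
    (g : σ → MvPolynomial τ R) (D : ℕ) (hg : ∀ i, (g i).totalDegree ≤ D) :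
    (aeval g F).totalDegree ≤ D * F.totalDegree := by
  classical
  rw [aeval_def, eval₂_eq]
  refine (totalDegree_finsetSum _ _).trans ?_
  refine Finset.sup_le fun d hd => ?_
  refine (totalDegree_mul _ _).trans ?_
  rw [algebraMap_eq, totalDegree_C, zero_add]
  refine (totalDegree_finsetProd _ _).trans ?_
  have h1 : ∀ i ∈ d.support, (g i ^ d i).totalDegree ≤ D * d i := by
    intro i _
    refine (totalDegree_pow _ _).trans ?_
    rw [mul_comm]
    exact Nat.mul_le_mul_right _ (hg i)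
  refine (Finset.sum_le_sum h1).trans ?_
  rw [← Finset.mul_sum]
  exact Nat.mul_le_mul_left _ (le_totalDegree hd)

/-- the grid lemma -/
theorem exists_grid [Infinite K] (D : ℕ) : ∃ G : Finset L, ∀ t₀ : L, t₀ ≠ 0 →
    ∀ F : MvPolynomial (L →ₐ[K] Ω) Ω, F ≠ 0 → F.totalDegree ≤ D →
      ∃ g ∈ G, eval (fun σ => σ (t₀ * g ^ 2)) F ≠ 0 := by
  classical
  obtain ⟨b, hb⟩ := exists_basis K L Ω
  obtain ⟨A, hA⟩ := Infinite.exists_subset_card_eq K (2 * D + 1)
  refine ⟨(Fintype.piFinset fun _ : (L →ₐ[K] Ω) => A).image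
    fun a => ∑ j, a j • b j, fun t₀ ht₀ F hF hFD => ?_⟩
  by_contra hcon
  push Not at hcon
  let g : (L →ₐ[K] Ω) → MvPolynomial (L →ₐ[K] Ω) Ω := fun σ =>
    C (σ t₀) * (∑ j, X j * C (σ (b j))) ^ 2
  have hgdeg : ∀ σ, (g σ).totalDegree ≤ 2 := by
    intro σ
    refine (totalDegree_mul _ _).trans ?_
    rw [totalDegree_C, zero_add]
    refine (totalDegree_pow _ _).trans ?_
    have h1 : (∑ j, X j * C (σ (b j)) : MvPolynomial (L →ₐ[K] Ω) Ω).totalDegree ≤ 1 := by
      refine (totalDegree_finsetSum _ _).trans ?_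
      refine Finset.sup_le fun j _ => ?_
      refine (totalDegree_mul _ _).trans ?_
      rw [totalDegree_C, add_zero]
      exact (totalDegree_X j).le
    omega
  have hzero : aeval g F = 0 := by
    refine eq_zero_of_eval_zero_at_prod_finset _
      (fun _ => A.image (algebraMap K Ω)) (fun i => ?_) (fun x hx => ?_)
    · rw [Finset.card_image_of_injective _ (algebraMap K Ω).injective, hA]
      have h1 := degreeOf_le_totalDegree (aeval g F) i
      have h2 := totalDegree_aeval_le F g 2 hgdeg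
      have h3 : 2 * F.totalDegree ≤ 2 * D := Nat.mul_le_mul_left _ hFD
      omega
    · have hx' : ∀ i, ∃ a ∈ A, algebraMap K Ω a = x i := fun i => Finset.mem_image.1 (hx i)
      choose a haA hax using hx'
      have h1 := hcon (∑ j, a j • b j) (Finset.mem_image.2 ⟨a, by
        rw [Fintype.mem_piFinset]; exact haA, rfl⟩)
      rw [← h1]
      have h2 : eval x (aeval g F) = eval (fun σ => eval x (g σ)) F := by
        rw [← coe_aeval_eq_eval, ← coe_aeval_eq_eval]
        simp only [RingHom.coe_coe]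
        rw [← AlgHom.comp_apply, comp_aeval]
      rw [h2]
      refine congrArg (fun v : (L →ₐ[K] Ω) → Ω => eval v F) (_root_.funext fun σ => ?_)
      simp only [g, map_mul, map_pow, map_sum, eval_C, eval_X, map_smul]
      congr 2
      refine Finset.sum_congr rfl fun j _ => ?_
      rw [← hax j, Algebra.smul_def]
  apply hF
  refine MvPolynomial.funext fun v => ?_
  rw [map_zero]
  have hr : ∀ σ : L →ₐ[K] Ω, ∃ w : Ω, w ^ 2 = v σ / σ t₀ := fun σ =>
    IsAlgClosed.exists_pow_nat_eq _ (by norm_num)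
  choose w hw using hr
  obtain ⟨a, ha⟩ := hb w
  have h2 : eval a (aeval g F) = eval (fun σ => eval a (g σ)) F := by
    rw [← coe_aeval_eq_eval, ← coe_aeval_eq_eval]
    simp only [RingHom.coe_coe]
    rw [← AlgHom.comp_apply, comp_aeval]
  rw [hzero, map_zero] at h2
  rw [h2]
  refine congrArg (fun v : (L →ₐ[K] Ω) → Ω => eval v F) (_root_.funext fun σ => ?_)
  simp only [g, map_mul, map_pow, map_sum, eval_C, eval_X]
  rw [ha σ, hw σ, mul_div_cancel₀]
  rw [ne_eq, map_eq_zero]
  exact ht₀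

/-- density from finite scaling sets -/
theorem dens_of_scaling [Infinite K] (Q : Set L)
    (hQ : ∀ G : Finset L, ∃ t₀ : L, t₀ ≠ 0 ∧ ∀ g ∈ G, g ≠ 0 → t₀ * g ^ 2 ∈ Q) : Dens K Ω Q := by
  classical
  intro F hF
  let P : MvPolynomial (L →ₐ[K] Ω) Ω := ∏ σ, X σ
  have hP : P ≠ 0 := Finset.prod_ne_zero_iff.2 fun σ _ => X_ne_zero σ
  obtain ⟨G, hG⟩ := exists_grid (K := K) (L := L) (Ω := Ω) (F * P).totalDegree
  obtain ⟨t₀, ht₀, hGQ⟩ := hQ G
  obtain ⟨g, hgG, hg⟩ := hG t₀ ht₀ (F * P) (mul_ne_zero hF hP) le_rfl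
  rw [map_mul] at hg
  refine ⟨t₀ * g ^ 2, hGQ g hgG ?_, left_ne_zero_of_mul hg⟩
  rintro rfl
  apply right_ne_zero_of_mul hg
  simp only [P, map_prod, eval_X]
  have hne : Nonempty (L →ₐ[K] Ω) := by
    rw [← Fintype.card_pos_iff, AlgHom.card]
    exact Module.finrank_pos
  obtain ⟨σ⟩ := hne
  refine Finset.prod_eq_zero (Finset.mem_univ σ) ?_
  simp

theorem dens_univ [Infinite K] : Dens K Ω (Set.univ : Set L) :=
  dens_of_scaling _ fun _ => ⟨1, one_ne_zero, fun _ _ _ => Set.mem_univ _⟩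

end Pool.Agent.Helper51.EC2
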